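import Pool.Agent.H391.SK.DefsA

/-!
# Project SK, group A (rank one): statements

Notation of the paper proofs: `a_n = X (n-1)` (`n ≥ 1`, weight `n`), `Λ = Lm ℂ`, `Λ_d` = the
polynomials of weight `d`, `p(n) = pn n`, `S(z) = ∑_j (S1 ν j) z^j = H(z) ∘ (a_n ↦ a_n - 2ν z^{-n})`,
`H(z) = exp (∑ a_n z^n/n) = ∑ h_m z^m`, `G(w) = exp (∑ a_n w^n/(2νn)) = ∑ g_k w^k`.
All statements have been tested numerically.
-/

namespace Pool.Agent.H391.SK

open MvPolynomial

/-- A0. Weights: `S1 ν j` maps `Λ_d` to `Λ_{d+j}` (to zero if `d + j < 0`); `LL m ν n` maps `Λ_d`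
to `Λ_{d+n}`. (`hs X m` has weight `m`, the coefficient of `w^k` in `shA ν f` has weight `d - k`.) -/
def S_A0 : Prop := ∀ (A : Type) [CommRing A] [Algebra ℂ A] (m ν : A) (d : ℕ) (f : Lm A), Wt f d →
  (∀ e : ℕ, ∀ j : ℤ, (e : ℤ) = d + j → Wt (S1 ν j f) e) ∧
  (∀ j : ℤ, (d : ℤ) + j < 0 → S1 ν j f = 0) ∧ (∀ n : ℕ, 1 ≤ n → Wt (LL m ν n f) (d + n)) ∧
  (∀ k : ℕ, Wt (hs (X : ℕ → Lm A) k) k) ∧ (∀ (μ : ℂ) (k : ℕ), Wt (gs μ k) k)

/-- A1 (Dyson-type constant term). The coefficient of `∏ X_i^{q(r-1)}` in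
`∏_{i<j} (X_i - X_j)^{2q}` is not zero.
Proof: `V = ∏_{i<j} (X_i - X_j)^q` has integral coefficients `V_μ`, is not zero, has degree
`≤ q(r-1)` in each variable, and `V(X⁻¹) ∏ X_i^{q(r-1)} = ± V(X)` (because
`X_i⁻¹ - X_j⁻¹ = -(X_i - X_j)/(X_i X_j)`), i.e. `V_{q(r-1)-μ} = ± V_μ` with one sign. The coefficient
is `∑_μ V_μ V_{q(r-1)-μ} = ± ∑ V_μ² ≠ 0`. -/
def S_A1 : Prop := ∀ q r : ℕ,
  coeff (Finsupp.equivFunOnFinite.symm fun _ => q * (r - 1))
    ((∏ i : Fin r, ∏ j ∈ Finset.Ioi i, (X i - X j : MvPolynomial (Fin r) ℂ)) ^ (2 * q)) ≠ 0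

/-- A2 (the Virasoro operators and the vertex operator).
`4ν L_{-n}^{(m+2ν)} S_j - S_j 4ν L_{-n}^{(m)} = 4ν (m+1+j) S_{j+n}` for `n ≥ 1`, `j ∈ ℤ`.
Proof: a direct computation with generating functions: `S(z) f = H(z) σ f`, where `σ` is the ring
homomorphism `a_k ↦ a_k - 2ν z^{-k}`; `σ(∑_{a+b=n} a_a a_b) = ∑ a_a a_b - 4ν ∑_{k<n} a_k z^{k-n} +
4ν²(n-1) z^{-n}`, `∂_k H = (z^k/k) H`, `σ ∂_k = ∂_k σ`, so that
`4ν∑ k a_{n+k} ∂_k (Hσf) = 4ν ∑_k a_{n+k} z^k H σf + H 4ν∑ k a_{n+k} ∂_k σf`, and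
`σ(4ν∑ k a_{n+k} ∂_k f) = 4ν∑ k (a_{n+k} - 2ν z^{-n-k}) ∂_k σf`. Finally
`z∂_z(S(z)f) = ∑_{k≥1} a_k z^k Hσf + H ∑_k 2ν k z^{-k} ∂_kσf`, so that everything adds up to
`4ν z^{-n}(m + 1 - n... )`: compare the coefficients of `z^j` in
`L S(z) - S(z) L = 4ν z^{-n} (z∂_z + m + 1 - n) S(z)`. -/
def S_A2 : Prop := ∀ (A : Type) [CommRing A] [Algebra ℂ A] (m ν : A) (n : ℕ), 1 ≤ n →
  ∀ (j : ℤ) (f : Lm A), LL (m + 2 * ν) ν n (S1 ν j f) - S1 ν j (LL m ν n f) =
    C (4 * ν * (m + 1 + ((j : ℤ) : A))) * S1 ν (j + n) f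

/-- A3 (the vertex operator and multiplication by `g_k`). `S(z) G(w) = G(w) (1 - w/z) S(z)`:
`S_j (g_{k+1} f) = g_{k+1} S_j f - g_k S_{j+1} f`.
(The substitution maps `G(w)` to `G(w) exp (-∑ (w/z)^n/n) = G(w) (1 - w/z)`.) -/
def S_A3 : Prop := ∀ ν : ℂ, ν ≠ 0 → ∀ (k : ℕ) (j : ℤ) (f : Lm ℂ),
  S1 ν j (gs ν (k + 1) * f) = gs ν (k + 1) * S1 ν j f - gs ν k * S1 ν (j + 1) f

/-- A4 (powers of the screening operator). For `q, r, s ≥ 1` and `m = s - 1 - (r-1) q` the operator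
`XX q m r` maps `g_r^s` to a nonzero constant.
Proof: for `N ≥ 0` let `ε_N : Λ → ℂ[x_1,…,x_N]` be the ring homomorphism
`a_n ↦ -2q (x_1^n + ⋯ + x_N^n)`; it maps `h_k` to the coefficient of `z^k` in `∏ (1 - x_i z)^{2q}` and
`g_k` to `(-1)^k e_k(x)`, and `ε_N(coefficient of w^k in shA f)` is the coefficient of `b^k` in
`ε_{N+1}(f)(x_1,…,x_N,b)`. So, with `F_N(f) = ε_N(f) ∏_{i<j≤N} (x_i - x_j)^{2q}`,
`F_N(S_j f)` is the coefficient of `b^{2qN-j}` in `F_{N+1}(f)(x_1,…,x_N,b)`, and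
(as `2qN - j = q(r-1)+s` for `j = -1-(m+2q i)`, `N = r-1-i`, `m = s-1-(r-1)q`) the constant
`ε_0(XX q m r f)` is the coefficient of `∏ x_i^{q(r-1)+s}` in
`ε_r(f) ∏_{i<j≤r} (x_i-x_j)^{2q}`; for `f = g_r^s`, `ε_r(f) = ± ∏ x_i^s`, and one uses A1. By A0,
`XX q m r (g_r^s)` has weight `r s - r s = 0` (`∑ j_i = - r s`), so it is a constant, equal to its
image under `ε_0`. -/
def S_A4 : Prop := ∀ q r s : ℕ, 1 ≤ q → 1 ≤ r → 1 ≤ s →
  ∃ κ : ℂ, κ ≠ 0 ∧ XX q ((s : ℤ) - 1 - (r - 1) * q) r (gs q r ^ s) = C κ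

/-- A5 (counting). `∑_{λ ⊢ d} ℓ(λ) = ∑_{r s ≤ d} p(d - r s)`: both sides count the pairs of a
partition `λ` of `d` and of `(r, s)` such that the part `s` occurs at least `r` times in `λ`. -/
def S_A5 : Prop := ∀ d : ℕ, ∑ l : Nat.Partition d, l.parts.card =
  ∑ r ∈ Finset.Icc 1 d, ∑ s ∈ Finset.Icc 1 d, if r * s ≤ d then pn (d - r * s) else 0

/-- A6 (order of vanishing of a determinant). If the matrix of polynomials `M` has corank `≥ k`
at `a`, then `(x-a)^k` divides its determinant. (Multiply the matrix from the left by an invertible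
constant matrix which makes `k` rows vanish at `a`.) -/
def S_A6 : Prop := ∀ (n : Type) [Fintype n] [DecidableEq n] (M : Matrix n n (Polynomial ℂ)) (a : ℂ)
  (k : ℕ), (M.map (Polynomial.eval a)).rank + k ≤ Fintype.card n →
    (Polynomial.X - Polynomial.C a) ^ k ∣ M.det

/-- A7 (determinant formula of Feigin and Fuchs for large integers `q`). -/
def S_A7 : Prop := ∀ d q : ℕ, d < q → ∀ m : ℂ, (DD m (q : ℂ) d).det =
  2 ^ (∑ l : Nat.Partition d, l.parts.card) *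
    ∏ r ∈ Finset.Icc 1 d, ∏ s ∈ Finset.Icc 1 d,
      if r * s ≤ d then (m - ((s : ℂ) - 1) + ((r : ℂ) - 1) * q) ^ pn (d - r * s) else 1

/-- A7 from the other parts.
Proof: by strong induction on `d`; fix `q > d` and regard `m` as an indeterminate: the matrix
`DD (X) (C q) d` over `ℂ[m]` (`A = Polynomial ℂ`; evaluation at `m` is compatible with `LL`).
(1) `vv m q l` is a polynomial in `m` of degree `≤ ℓ(l)`, the coefficient of `m^ℓ(l)` is
`2^ℓ(l) X^{mo l}`; so the determinant has degree `≤ ∑ ℓ(l) =: L` in `m` and the coefficient of `m^L`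
is `2^L`.
(2) For `r, s ≥ 1`, `r s ≤ d`, put `m₀ = s - 1 - (r-1) q`. The operator `X = XX q m₀ r` satisfies
`X (LL m₀ q n f) = LL (m₀ + 2qr) q n (X f)` by A2 (the factor `m+1+j` vanishes in every step), and
`X 1 = 0` by A0 (the weight would be `-r s < 0`); so all `vv m₀ q l` lie in the kernel of
`X : Λ_d → Λ_{d-rs}`. This map is surjective: it maps `g_r^s` to a constant `≠ 0` (A4), hence
`LL ⋯ LL g_r^s` to a multiple of `vv (m₀ + 2qr) q l'`, for all partitions `l'` of `d - r s`, and these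
span `Λ_{d-rs}` because the determinant for `d - r s < d` does not vanish at `m₀ + 2qr = s-1+(r+1)q`
(by the formula: `s-1+(r+1)q = s'-1-(r'-1)q` is impossible for `s' ≤ d < q`). So the
matrix at `m₀` has corank `≥ p(d - r s)`, and `(m-m₀)^{p(d-rs)}` divides the determinant by A6.
(3) The numbers `m₀` are distinct for distinct `(r,s)` as `q > d`, so the product of these powers
divides the determinant; by A5 its degree is `L`; compare with (1). -/
def S_A7imp : Prop := S_A0 → S_A2 → S_A4 → S_A5 → S_A6 → S_A7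

/-- A8. For an integer `p ≥ 1` the operator `S1 p 0 : Λ_d → Λ_d` is surjective (bijective). -/
def S_A8 : Prop := ∀ p d : ℕ, 1 ≤ p → ∀ h : Lm ℂ, Wt h d → ∃ f : Lm ℂ, Wt f d ∧ S1 (p : ℂ) 0 f = h

/-- A8 from A0, A2, A7.
Proof: over `A = ℂ[ν]` (`ν` the indeterminate) A2 with `m = -1`, `j = 0` gives
`S_0 LL^{(-1)}_n = LL^{(2ν-1)}_n S_0`, and `S_0 1 = 1`, so `S_0 (vv (-1) ν l) = vv (2ν-1) ν l`; thus
`det(S_0 on Λ_d)(ν) · det (DD (-1) ν d) = det (DD (2ν-1) ν d)` in `ℂ[ν]` (matrix of `S_0` in the basis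
of monomials `mo l`; the specialisations of all operators at a number `ν` are compatible).
By A7 at all the integers `ν = q > d` (`m = -1`, resp. `m = 2q - 1`), these two polynomials in `ν`
are `2^L ∏_{rs≤d} ((r-1)ν - s)^{p(d-rs)}` and `2^L ∏_{rs≤d} ((r+1)ν - s)^{p(d-rs)}`. At `ν = p` the
first vanishes to the order `∑_{r≥2, r(r-1)p ≤ d} p(d - r(r-1)p)` (the factors with `s = (r-1)p`) and
the second to the order `∑_{r≥1, r(r+1)p ≤ d} p(d - r(r+1)p)`, which is the same number. Both are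
not zero as polynomials, hence `det(S_0)(p) ≠ 0`. -/
def S_A8imp : Prop := S_A0 → S_A2 → S_A7 → S_A8

/-- A9. For an integer `p ≥ 1` the operator `S1 p (-1)` is surjective, more precisely it maps
`Λ_{d+1}` onto `Λ_d`. -/
def S_A9 : Prop := ∀ p d : ℕ, 1 ≤ p → ∀ h : Lm ℂ, Wt h d →
  ∃ f : Lm ℂ, Wt f (d + 1) ∧ S1 (p : ℂ) (-1) f = h

/-- A9 from A0, A3, A8.
Proof: show by downward induction on `k ≤ d` that `g_k h ∈ S_{-1} Λ_{d+1}` for all `h ∈ Λ_{d-k}`:
write `h = S_0 f`, `f ∈ Λ_{d-k}` (A8). A3 with `j = -1`: `S_{-1}(g_{k+1} f) = g_{k+1} S_{-1} f - g_k S_0 f`,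
so `g_k h = g_{k+1} S_{-1} f - S_{-1}(g_{k+1} f)`, where `S_{-1} f ∈ Λ_{d-k-1}` (`= 0` if `k = d`), and
`g_{k+1} S_{-1}f ∈ S_{-1} Λ_{d+1}` by the induction hypothesis. For `k = 0`, `g_0 = 1`. -/
def S_A9imp : Prop := S_A0 → S_A3 → S_A8 → S_A9

/-- A10 (the symbols of the kernel in rank one). For an integer `p ≥ 1` the homogeneous component
of top degree of an element of the kernel of `S1 p (-1)` is a polynomial in the `yy n`
(here degree means the usual degree, all `X n` having degree one). -/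
def S_A10 : Prop := ∀ p : ℕ, 1 ≤ p → ∀ (d : ℕ) (f : Lm ℂ), S1 (p : ℂ) (-1) f = 0 →
  f.totalDegree ≤ d → homogeneousComponent d f ∈ Algebra.adjoin ℂ (Set.range yy)

/-- A10 from A0, A2, A9.
Proof: all operators are homogeneous for the weight, so one may assume that `f` has weight `n`.
By A9 (and A0) the kernel `Z_n` of `S_{-1} : Λ_n → Λ_{n-1}` has dimension `p(n) - p(n-1)`
(`1` if `n = 0`). For `k ≥ 2` the operator `LL 0 p k` preserves the kernel of `S_{-1}` (A2 with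
`m = 0`, `j = -1`) and, if `f` has degree `≤ e`, then `LL 0 p k f` has degree `≤ e + 2` and its
component of degree `e + 2` is `yy (k-2)` times the component of degree `e` of `f`. So every product
`∏ yy (n_i)` is the top component of the element `LL 0 p (n_1+2) ⋯ LL 0 p (n_r+2) 1` of the kernel.
The products `∏ yy (n_i)` of weight `n` (`yy k` has weight `k+2`) are linearly independent (their
leading monomials `∏ X 0 X (n_i)` are distinct), and there are `p(n) - p(n-1)` of them (partitions of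
`n` without the part `1`). The space of top components (for all degrees) of the elements of `Z_n`
has the same dimension as `Z_n`, so it is the span of these products. -/
def S_A10imp : Prop := S_A0 → S_A2 → S_A9 → S_A10

end Pool.Agent.H391.SK
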