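import Pool.Agent.H391.SK.P.A0
import Pool.Agent.H391.SK.P.A1
import Pool.Agent.H391.SK.P.A2
import Pool.Agent.H391.SK.P.A3
import Pool.Agent.H391.SK.P.A4
import Pool.Agent.H391.SK.P.A5
import Pool.Agent.H391.SK.P.A6
import Pool.Agent.H391.SK.P.A7
import Pool.Agent.H391.SK.P.A8
import Pool.Agent.H391.SK.P.A9
import Pool.Agent.H391.SK.P.A10

/-!
# Project SK: assembly of group A (rank one)
-/

namespace Pool.Agent.H391.SK

theorem a4 : S_A4 := P_A4.main P_A0.main P_A1.main

theorem a7 : S_A7 := P_A7.main P_A0.main P_A2.main a4 P_A5.main P_A6.main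

theorem a8 : S_A8 := P_A8.main P_A0.main P_A2.main a7

theorem a9 : S_A9 := P_A9.main P_A0.main P_A3.main a8

theorem a10 : S_A10 := P_A10.main P_A0.main P_A2.main a9

end Pool.Agent.H391.SK
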