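import Pool.Agent.H391.SK.StF

/-!
# Project SK: assembly of ALL
-/

set_option linter.unusedSectionVars false

namespace Pool.Agent.H391.SK

open MvPolynomial

variable {ι : Type} [Fintype ι] [DecidableEq ι]

theorem mem_KerS {A : Type} [CommRing A] [Algebra ℂ A] {c : Matrix ι ι ℤ} {ν : A} {I : Set ι}
    {f : Fk ι A} : f ∈ KerS c ν I ↔ ∀ i ∈ I, Scr c ν i f = 0 := by
  simp [KerS, Submodule.mem_iInf]

/-- Lifts of homogeneous elements of `B_i`. -/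
theorem lift_one (hLC : S_LC) (hCLO : S_CLO) (hLFT : S_LFT) {c : Matrix ι ι ℤ} (hc : IsADE c)
    (ν : ℂ) (i : ι) {f : Fk ι ℂ} (hf : f ∈ B c (al i)) (e : ℕ) :
    Lft c ν {i} e (homogeneousComponent e f) := by
  obtain ⟨h1, h2, -⟩ := hLFT ι c hc ν
  refine hLC hCLO ι c hc ν {i} ({lin (al i) 0 ^ 2} ∪ {g | ∃ v, form c v (al i) = 0 ∧ g = lin v 0})
    ?_ f ?_ e
  · rintro g (hg | ⟨v, hv, rfl⟩)
    · rw [Set.mem_singleton_iff] at hg
      exact ⟨2, hg ▸ h2 i⟩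
    · exact ⟨1, h1 {i} v (by intro j hj; rw [Set.mem_singleton_iff] at hj; rw [hj, hv])⟩
  · refine Algebra.adjoin_mono ?_ hf
    rintro g (⟨n, rfl⟩ | ⟨v, n, hv, rfl⟩)
    · exact ⟨lin (al i) 0 ^ 2, Or.inl rfl, n, rfl⟩
    · exact ⟨lin v 0, Or.inr ⟨v, hv, rfl⟩, n, (D_lin0 n v).symm⟩

/-- Lifts of homogeneous elements of `B_i ∩ B_j`. -/
theorem lift_two (hLC : S_LC) (hCLO : S_CLO) (hLFT : S_LFT) (hE1 : S_E1) (hP : S_PAIR)
    {c : Matrix ι ι ℤ} (hc : IsADE c) (ν : ℂ) {i j : ι} (hij : i ≠ j) {f : Fk ι ℂ}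
    (hi : f ∈ B c (al i)) (hj : f ∈ B c (al j)) (e : ℕ) :
    Lft c ν {i, j} e (homogeneousComponent e f) := by
  obtain ⟨-, -, h3⟩ := hLFT ι c hc ν
  have hf : f ∈ RR (pairP c i j) := by
    refine (hE1 ι c hc {i, j} (pairP c i j) (hP ι c hc i j hij)).2 f ?_
    intro k hk
    rw [Finset.mem_insert, Finset.mem_singleton] at hk
    rcases hk with rfl | rfl
    · exact hi
    · exact hj
  refine hLC hCLO ι c hc ν {i, j} {g | ∃ k, g = emb (pairP c i j k)} ?_ f ?_ e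
  · rintro g ⟨k, rfl⟩
    exact h3 i j k hij
  · refine Algebra.adjoin_mono ?_ hf
    rintro g ⟨k, n, rfl⟩
    exact ⟨emb (pairP c i j k), ⟨k, rfl⟩, n, rfl⟩

theorem asm_all (hLC : S_LC) (hCLO : S_CLO) (hLFT : S_LFT) (hE1 : S_E1) (hP : S_PAIR)
    (hMID : S_MID) (hGLUE : S_GLUE) (hR1 : S_R1) : S_ALL := by
  intro ι _ _ c hc p hp d x hx hB
  have key : ∀ (d : ℕ) (f : Fk ι ℂ), f.IsHomogeneous d → homogeneousComponent d f = f := by
    intro d f hf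
    rw [homogeneousComponent_of_mem ((mem_homogeneousSubmodule _ _).mpr hf), if_pos rfl]
  have g1 : ∀ i, ∀ a ∈ KerS c (p : ℂ) {i}, ∀ d, a.totalDegree ≤ d →
      homogeneousComponent d a ∈ B c (al i) := fun i a ha d hd =>
    hR1 ι c hc p hp i d a (mem_KerS.mp ha i rfl) hd
  have g2 : ∀ i j, ∀ (d : ℕ) (x : Fk ι ℂ), x.IsHomogeneous d → x ∈ B c (al i) → x ∈ B c (al j) →
      ∃ a, a ∈ KerS c (p : ℂ) {i} ∧ a ∈ KerS c (p : ℂ) {j} ∧ a.totalDegree ≤ d ∧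
        homogeneousComponent d a = x := by
    intro i j d x hx hi hj
    by_cases hij : i = j
    · subst hij
      obtain ⟨-, a, ha, hd, hax⟩ := lift_one hLC hCLO hLFT hc (p : ℂ) i hi d
      rw [key d x hx] at hax
      exact ⟨a, ha, ha, hd, hax⟩
    · obtain ⟨-, a, ha, hd, hax⟩ := lift_two hLC hCLO hLFT hE1 hP hc (p : ℂ) hij hi hj d
      rw [key d x hx] at hax
      refine ⟨a, mem_KerS.mpr ?_, mem_KerS.mpr ?_, hd, hax⟩
      · intro k hk
        rw [Set.mem_singleton_iff] at hk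
        exact mem_KerS.mp ha k (by rw [hk]; exact Set.mem_insert _ _)
      · intro k hk
        rw [Set.mem_singleton_iff] at hk
        exact mem_KerS.mp ha k (by rw [hk]; exact Set.mem_insert_of_mem _ rfl)
  obtain ⟨v, hv, hvx, hA⟩ := hGLUE hMID ι c hc (fun i => KerS c (p : ℂ) {i}) g1 g2 d x hx hB
  refine ⟨hx, v, ?_, hv, hvx⟩
  rw [mem_KerS]
  intro i _
  exact mem_KerS.mp (hA i) i rfl

end Pool.Agent.H391.SK
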