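import Pool.Agent.H391.SK.Basic

/-!
# Project SK: basic lemmas on jets and on the algebras `B`
-/

set_option linter.unusedSectionVars false
set_option linter.unusedSimpArgs false

namespace Pool.Agent.H391.SK

open MvPolynomial

variable {ι : Type} [Fintype ι] [DecidableEq ι]

/-! ### `D` -/

theorem D_add (n : ℕ) (f g : Fk ι ℂ) : D n (f + g) = D n f + D n g := by
  simp [D]

theorem D_sum {κ : Type} (s : Finset κ) (n : ℕ) (f : κ → Fk ι ℂ) :
    D n (∑ i ∈ s, f i) = ∑ i ∈ s, D n (f i) := by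
  simp [D, map_sum]

theorem D_smul (n : ℕ) (a : ℂ) (f : Fk ι ℂ) : D n (a • f) = a • D n f := by
  simp only [D, map_smul]
  rfl

theorem D_mul (n : ℕ) (f g : Fk ι ℂ) :
    D n (f * g) = ∑ p ∈ Finset.HasAntidiagonal.antidiagonal n, D p.1 f * D p.2 g := by
  simp only [D, map_mul, PowerSeries.coeff_mul]

theorem D_X (n : ℕ) (k : ι) (m : ℕ) :
    D n (X (k, m) : Fk ι ℂ) = C (((m + n).choose n : ℕ) : ℂ) * X (k, m + n) := by
  simp only [D, jet, aeval_X, PowerSeries.coeff_mk]

theorem D_C_mul (n : ℕ) (a : ℂ) (f : Fk ι ℂ) : D n (C a * f) = C a * D n f := by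
  rw [← smul_eq_C_mul, ← smul_eq_C_mul, D_smul]

theorem D_lin (n : ℕ) (v : ι → ℤ) (m : ℕ) :
    D n (lin v m) = C (((m + n).choose n : ℕ) : ℂ) * lin v (m + n) := by
  rw [lin, D_sum, lin, Finset.mul_sum]
  refine Finset.sum_congr rfl fun k _ => ?_
  rw [D_C_mul, D_X]
  ring

theorem D_lin0 (n : ℕ) (v : ι → ℤ) : D n (lin v 0) = lin v n := by
  rw [D_lin]; simp

theorem D_one (n : ℕ) : D n (1 : Fk ι ℂ) = if n = 0 then 1 else 0 := by
  simp [D, PowerSeries.coeff_one]

theorem D_zero_idx (f : Fk ι ℂ) : D 0 f = f := by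
  have h : ∀ f : Fk ι ℂ, D 0 f = (AlgHom.id ℂ (Fk ι ℂ)) f := by
    intro f
    induction f using MvPolynomial.induction_on with
    | C a =>
      have : (C a : Fk ι ℂ) = a • 1 := by rw [smul_eq_C_mul, mul_one]
      rw [this, D_smul, D_one, if_pos rfl, AlgHom.id_apply]
    | add p q hp hq => rw [D_add, hp, hq, map_add]
    | mul_X p i hp =>
      obtain ⟨k, m⟩ := i
      rw [D_mul]
      simp [hp, D_X]
  rw [h, AlgHom.id_apply]

theorem act_D (g : (ι → ℤ) →ₗ[ℤ] (ι → ℤ)) (n : ℕ) (f : Fk ι ℂ) :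
    act g (D n f) = D n (act g f) := by
  induction f using MvPolynomial.induction_on generalizing n with
  | C a =>
    have : (C a : Fk ι ℂ) = a • 1 := by rw [smul_eq_C_mul, mul_one]
    rw [this, D_smul, map_smul, map_smul, map_one, D_smul, D_one]
    split_ifs <;> simp
  | add p q hp hq => rw [D_add, map_add, map_add, D_add, hp, hq]
  | mul_X p i hp =>
    obtain ⟨k, m⟩ := i
    rw [D_mul, map_sum, map_mul, D_mul]
    refine Finset.sum_congr rfl fun x _ => ?_
    rw [map_mul, hp, D_X, map_mul, act_X, act_X, D_lin]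
    simp [act]

/-- The quadratic generators of `B`. -/
theorem D_sq (n : ℕ) (β : ι → ℤ) :
    D n (lin β 0 ^ 2) = ∑ p ∈ Finset.HasAntidiagonal.antidiagonal n, lin β p.1 * lin β p.2 := by
  rw [pow_two, D_mul]
  simp only [D_lin0]

/-! ### The algebras `B` -/

theorem sq_mem_B (c : Matrix ι ι ℤ) (β : ι → ℤ) (n : ℕ) : D n (lin β 0 ^ 2) ∈ B c β :=
  Algebra.subset_adjoin (Or.inl ⟨n, rfl⟩)

theorem lin_mem_B {c : Matrix ι ι ℤ} {β v : ι → ℤ} (h : form c v β = 0) (n : ℕ) :
    lin v n ∈ B c β :=
  Algebra.subset_adjoin (Or.inr ⟨v, n, h, rfl⟩)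

/-- The group maps `B β` to `B (g β)`. -/
theorem act_mem_B {c : Matrix ι ι ℤ} {g : (ι → ℤ) →ₗ[ℤ] (ι → ℤ)}
    (hg : ∀ v w, form c (g v) (g w) = form c v w) {β : ι → ℤ} {f : Fk ι ℂ} (hf : f ∈ B c β) :
    act g f ∈ B c (g β) := by
  have : (B c β) ≤ (B c (g β)).comap (act g) := by
    refine Algebra.adjoin_le ?_
    rintro f (⟨n, rfl⟩ | ⟨v, n, hv, rfl⟩)
    · rw [SetLike.mem_coe, Subalgebra.mem_comap, act_D, map_pow, act_lin]
      exact sq_mem_B c _ n
    · rw [SetLike.mem_coe, Subalgebra.mem_comap, act_lin]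
      exact lin_mem_B (by rw [hg, hv]) n
  exact Subalgebra.mem_comap _ _ _ |>.mp (this hf)

theorem act_Wg_mem_B {c : Matrix ι ι ℤ} (hc : IsADE c) {I : Set ι} {g : (ι → ℤ) ≃ₗ[ℤ] (ι → ℤ)}
    (hg : g ∈ Wg c I) {β : ι → ℤ} {f : Fk ι ℂ} (hf : f ∈ B c β) :
    act (g : (ι → ℤ) →ₗ[ℤ] (ι → ℤ)) f ∈ B c (g β) :=
  act_mem_B (g := (g : (ι → ℤ) →ₗ[ℤ] (ι → ℤ))) (fun v w => form_Wg hc hg v w) hf

theorem B_neg (c : Matrix ι ι ℤ) (β : ι → ℤ) : B c (-β) = B c β := by
  simp only [B, lin_neg, neg_sq, form_neg_right, neg_eq_zero]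

/-- The elements of `B β` are invariant under `s_β`. -/
theorem B_inv {c : Matrix ι ι ℤ} {β : ι → ℤ} (h : form c β β = 2) {f : Fk ι ℂ}
    (hf : f ∈ B c β) : act (sr c β) f = f := by
  unfold B at hf
  induction hf using Algebra.adjoin_induction with
  | mem x hx =>
    rcases hx with ⟨n, rfl⟩ | ⟨v, n, hv, rfl⟩
    · rw [act_D, map_pow, act_lin, sr_apply, h]
      have : β - (2 : ℤ) • β = -β := by rw [two_smul]; abel
      rw [this, lin_neg, neg_sq]
    · rw [act_lin, sr_apply, hv, zero_smul, sub_zero]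
  | algebraMap r => rw [AlgHom.commutes]
  | add x y _ _ hx hy => rw [map_add, hx, hy]
  | mul x y _ _ hx hy => rw [map_mul, hx, hy]

/-! ### Homogeneous components -/

theorem lin_isHomogeneous (v : ι → ℤ) (n : ℕ) : (lin v n).IsHomogeneous 1 := by
  refine IsHomogeneous.sum _ _ _ fun k _ => ?_
  exact isHomogeneous_C_mul_X _ _

theorem D_isHomogeneous {f : Fk ι ℂ} {e : ℕ} (hf : f.IsHomogeneous e) (n : ℕ) :
    (D n f).IsHomogeneous e := by
  have key : ∀ (m : (ι × ℕ) →₀ ℕ) (n : ℕ), (D n (monomial m (1 : ℂ))).IsHomogeneous (m.degree) := by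
    intro m
    induction m using Finsupp.induction_linear with
    | zero =>
      intro n
      have : (monomial (0 : (ι × ℕ) →₀ ℕ) (1 : ℂ)) = 1 := rfl
      rw [this, D_one]
      split_ifs
      · simpa using isHomogeneous_one _ _
      · exact isHomogeneous_zero _ _ _
    | add a b ha hb =>
      intro n
      have : (monomial (a + b) (1 : ℂ)) = monomial a 1 * monomial b 1 := by
        rw [monomial_mul, one_mul]
      rw [this, D_mul]
      refine IsHomogeneous.sum _ _ _ fun p _ => ?_
      rw [map_add]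
      exact (ha p.1).mul (hb p.2)
    | single p k =>
      induction k with
      | zero =>
        intro n
        rw [Finsupp.single_zero]
        have : (monomial (0 : (ι × ℕ) →₀ ℕ) (1 : ℂ)) = 1 := rfl
        rw [this, D_one]
        split_ifs
        · simpa using isHomogeneous_one _ _
        · exact isHomogeneous_zero _ _ _
      | succ k ih =>
        intro n
        have h1 : (monomial (Finsupp.single p (k + 1)) (1 : ℂ)) =
            monomial (Finsupp.single p k) 1 * X p := by
          rw [X, monomial_mul, one_mul, ← Finsupp.single_add]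
        rw [h1, D_mul]
        refine IsHomogeneous.sum _ _ _ fun q _ => ?_
        have h2 : (Finsupp.single p (k + 1)).degree = (Finsupp.single p k).degree + 1 := by
          simp [Finsupp.degree_single]
        rw [h2]
        refine (ih q.1).mul ?_
        obtain ⟨j, m⟩ := p
        rw [D_X]
        exact isHomogeneous_C_mul_X _ _
  rw [f.as_sum, D_sum]
  refine IsHomogeneous.sum _ _ _ fun m hm => ?_
  have h1 : monomial m (coeff m f) = C (coeff m f) * monomial m 1 := by
    rw [C_mul_monomial, mul_one]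
  rw [h1, D_C_mul]
  have h2 : m.degree = e := by
    have := hf (mem_support_iff.mp hm)
    rw [← this, Finsupp.degree_eq_weight_one]
    rfl
  rw [← h2, ← zero_add m.degree]
  exact (isHomogeneous_C _ _).mul (key m n)

theorem hc_mul (x y : Fk ι ℂ) (e : ℕ) : homogeneousComponent e (x * y) =
    ∑ i ∈ Finset.range (x.totalDegree + 1), ∑ j ∈ Finset.range (y.totalDegree + 1),
      if i + j = e then homogeneousComponent i x * homogeneousComponent j y else 0 := by
  conv_lhs => rw [← sum_homogeneousComponent x, ← sum_homogeneousComponent y,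
    Finset.sum_mul_sum, map_sum]
  refine Finset.sum_congr rfl fun i _ => ?_
  rw [map_sum]
  refine Finset.sum_congr rfl fun j _ => ?_
  rw [homogeneousComponent_of_mem ((mem_homogeneousSubmodule _ _).mpr
    ((homogeneousComponent_isHomogeneous i x).mul (homogeneousComponent_isHomogeneous j y)))]
  simp only [eq_comm]

/-- `B β` is graded by the degree. -/
theorem hc_mem_B {c : Matrix ι ι ℤ} {β : ι → ℤ} {f : Fk ι ℂ} (hf : f ∈ B c β) (e : ℕ) :
    homogeneousComponent e f ∈ B c β := by
  have key : ∀ f ∈ B c β, ∀ e, homogeneousComponent e f ∈ B c β := by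
    intro f hf
    induction hf using Algebra.adjoin_induction with
    | mem x hx =>
      intro e
      rcases hx with ⟨n, rfl⟩ | ⟨v, n, hv, rfl⟩
      · have h2 : (D n (lin β 0 ^ 2)).IsHomogeneous 2 :=
          D_isHomogeneous (by simpa using (lin_isHomogeneous β 0).pow 2) n
        rw [homogeneousComponent_of_mem ((mem_homogeneousSubmodule _ _).mpr h2)]
        split_ifs
        · exact sq_mem_B c β n
        · exact Subalgebra.zero_mem _
      · rw [homogeneousComponent_of_mem ((mem_homogeneousSubmodule _ _).mpr (lin_isHomogeneous v n))]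
        split_ifs
        · exact lin_mem_B hv n
        · exact Subalgebra.zero_mem _
    | algebraMap r =>
      intro e
      have : algebraMap ℂ (Fk ι ℂ) r = C r := rfl
      rw [this, homogeneousComponent_of_mem ((mem_homogeneousSubmodule _ _).mpr (isHomogeneous_C _ r))]
      split_ifs
      · exact Subalgebra.algebraMap_mem _ r
      · exact Subalgebra.zero_mem _
    | add x y _ _ hx hy => intro e; rw [map_add]; exact Subalgebra.add_mem _ (hx e) (hy e)
    | mul x y _ _ hx hy =>
      intro e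
      rw [hc_mul]
      refine Subalgebra.sum_mem _ fun i _ => Subalgebra.sum_mem _ fun j _ => ?_
      split_ifs
      · exact Subalgebra.mul_mem _ (hx _) (hy _)
      · exact Subalgebra.zero_mem _
  exact key f hf e

/-! ### Jet weights -/

/-- The jet weight of a monomial. -/
def jwt (m : (ι × ℕ) →₀ ℕ) : ℕ := m.sum fun p k => k * p.2

theorem jwt_add (a b : (ι × ℕ) →₀ ℕ) : jwt (a + b) = jwt a + jwt b := by
  unfold jwt
  rw [Finsupp.sum_add_index'] <;> intros <;> ring

theorem jwt_single (p : ι × ℕ) (k : ℕ) : jwt (Finsupp.single p k) = k * p.2 := by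
  unfold jwt
  rw [Finsupp.sum_single_index]; ring

theorem JW_def (N : ℕ) (f : Fk ι ℂ) : JW N f ↔ ∀ m ∈ f.support, jwt m ≤ N := Iff.rfl

theorem JW_mono {N M : ℕ} (h : N ≤ M) {f : Fk ι ℂ} (hf : JW N f) : JW M f :=
  fun m hm => (hf m hm).trans h

theorem JW_zero (N : ℕ) : JW N (0 : Fk ι ℂ) := by
  intro m hm; simp at hm

theorem JW_add {N : ℕ} {f g : Fk ι ℂ} (hf : JW N f) (hg : JW N g) : JW N (f + g) := by
  classical
  intro m hm
  rcases Finset.mem_union.mp (support_add hm) with h | h
  · exact hf m h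
  · exact hg m h

theorem JW_neg {N : ℕ} {f : Fk ι ℂ} (hf : JW N f) : JW N (-f) := by
  intro m hm
  rw [support_neg] at hm
  exact hf m hm

theorem JW_sub {N : ℕ} {f g : Fk ι ℂ} (hf : JW N f) (hg : JW N g) : JW N (f - g) := by
  rw [sub_eq_add_neg]; exact JW_add hf (JW_neg hg)

theorem JW_sum {κ : Type} {N : ℕ} (s : Finset κ) (f : κ → Fk ι ℂ) (h : ∀ i ∈ s, JW N (f i)) :
    JW N (∑ i ∈ s, f i) := by
  classical
  induction s using Finset.induction_on with
  | empty => rw [Finset.sum_empty]; exact JW_zero N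
  | insert a s ha ih =>
    rw [Finset.sum_insert ha]
    exact JW_add (h a (Finset.mem_insert_self _ _))
      (ih fun i hi => h i (Finset.mem_insert_of_mem hi))

theorem JW_mul {N M : ℕ} {f g : Fk ι ℂ} (hf : JW N f) (hg : JW M g) : JW (N + M) (f * g) := by
  classical
  intro m hm
  obtain ⟨a, ha, b, hb, rfl⟩ := Finset.mem_add.mp (support_mul f g hm)
  have := jwt_add a b
  unfold jwt at this
  rw [this]
  exact Nat.add_le_add (hf a ha) (hg b hb)

theorem JW_C (a : ℂ) : JW 0 (C a : Fk ι ℂ) := by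
  classical
  intro m hm
  have : m = 0 := by
    by_contra h
    rw [mem_support_iff, coeff_C, if_neg (Ne.symm h)] at hm
    exact hm rfl
  rw [this]; simp

theorem JW_X (p : ι × ℕ) : JW p.2 (X p : Fk ι ℂ) := by
  classical
  intro m hm
  have : m = Finsupp.single p 1 := by
    by_contra h
    rw [mem_support_iff, coeff_X', if_neg (Ne.symm h)] at hm
    exact hm rfl
  rw [this]
  have := jwt_single p 1
  unfold jwt at this
  rw [this, one_mul]

theorem JW_C_mul {N : ℕ} (a : ℂ) {f : Fk ι ℂ} (hf : JW N f) : JW N (C a * f) := by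
  have := JW_mul (JW_C a) hf
  rwa [zero_add] at this

theorem JW_lin (v : ι → ℤ) (n : ℕ) : JW n (lin v n) :=
  JW_sum _ _ fun k _ => JW_C_mul _ (JW_X (k, n))

theorem JW_pow {N : ℕ} {f : Fk ι ℂ} (hf : JW N f) (k : ℕ) : JW (k * N) (f ^ k) := by
  induction k with
  | zero => rw [pow_zero, zero_mul]; exact JW_C 1
  | succ k ih => rw [pow_succ, Nat.succ_mul]; exact JW_mul ih hf

/-- Algebra homomorphisms which respect the jet weights of the variables. -/
theorem JW_aeval {ι' : Type} [Fintype ι'] [DecidableEq ι'] (φ : ι' × ℕ → Fk ι ℂ)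
    (h : ∀ p, JW p.2 (φ p)) {N : ℕ} {f : Fk ι' ℂ} (hf : JW N f) : JW N (aeval φ f) := by
  classical
  rw [f.as_sum, map_sum]
  refine JW_sum _ _ fun m hm => ?_
  rw [aeval_monomial]
  refine JW_C_mul _ ?_
  refine JW_mono (hf m hm) ?_
  clear hm
  induction m using Finsupp.induction with
  | zero => rw [Finsupp.prod_zero_index, Finsupp.sum_zero_index]; exact JW_C 1
  | single_add p k m hp hk ih =>
    rw [Finsupp.prod_add_index', Finsupp.sum_add_index', Finsupp.prod_single_index,
      Finsupp.sum_single_index]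
    · exact JW_mul (JW_pow (h p) k) ih
    · ring
    · rw [pow_zero]
    · intro; ring
    · intros; ring
    · intro; rw [pow_zero]
    · intros; rw [pow_add]

theorem JW_act (g : (ι → ℤ) →ₗ[ℤ] (ι → ℤ)) {N : ℕ} {f : Fk ι ℂ} (hf : JW N f) :
    JW N (act g f) := by
  unfold act
  exact JW_aeval _ (fun p => JW_lin _ _) hf

theorem JW_emb (f : MvPolynomial ι ℂ) : JW 0 (emb f) := by
  induction f using MvPolynomial.induction_on with
  | C a => 
    have : (emb (C a) : Fk ι ℂ) = C a := by simp [emb]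
    rw [this]; exact JW_C a
  | add p q hp hq => rw [map_add]; exact JW_add hp hq
  | mul_X p i hp =>
    rw [map_mul, emb_X]
    exact JW_mul hp (JW_X (i, 0))

theorem exists_JW (f : Fk ι ℂ) : ∃ N, JW N f := by
  classical
  refine ⟨f.support.sup jwt, fun m hm => ?_⟩
  exact Finset.le_sup (f := jwt) hm

end Pool.Agent.H391.SK
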