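import Pool.Agent.H391.SK.Basic2

/-!
# Project SK, groups D and E: reflection groups, arcs, exactness. Statements.

Notation of the paper proofs. `Φ⁺_I = PR c I` (positive roots in the span of the simple roots
`α_i = al i`, `i ∈ I`), `W_I = Wg c I`, `s_i = sr c (al i)`, `O = MvPolynomial ι ℂ` (polynomial
functions; the point `x : ι → ℂ` has `α_k(x) = x k`), `C = Fk ι ℂ` (functions on arcs), `B_i =
B c (al i) ⊆ C`. `w f = act0 w f` resp. `act w f`. For a point `x` let `(x∘w) k = ∑_j (w α_k)_j x j`;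
then `(w f)(x) = f(x∘w)`. `Δ_I = Jc c I ∅` is the product of `Φ⁺_I`.
-/

namespace Pool.Agent.H391.SK

open MvPolynomial

/-- `P` generates the polynomial invariants of `W_I`. -/
def Gen {ι : Type} [Fintype ι] [DecidableEq ι] (c : Matrix ι ι ℤ) (I : Finset ι)
    (P : ι → MvPolynomial ι ℂ) : Prop :=
  ∀ f : MvPolynomial ι ℂ, f ∈ Algebra.adjoin ℂ (Set.range P) ↔
    ∀ i ∈ I, act0 (sr c (al i)) f = f

/-- The algebra generated by all `D n (P j)`. -/
noncomputable def RR {ι : Type} [Fintype ι] [DecidableEq ι] (P : ι → MvPolynomial ι ℂ) :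
    Subalgebra ℂ (Fk ι ℂ) :=
  Algebra.adjoin ℂ {g | ∃ (j : ι) (n : ℕ), g = D n (emb (P j))}

/-- The algebra generated by `O` and all `D n (P j)`. -/
noncomputable def RO {ι : Type} [Fintype ι] [DecidableEq ι] (P : ι → MvPolynomial ι ℂ) :
    Subalgebra ℂ (Fk ι ℂ) :=
  Algebra.adjoin ℂ (Set.range (emb : MvPolynomial ι ℂ → Fk ι ℂ) ∪
    {g | ∃ (j : ι) (n : ℕ), g = D n (emb (P j))})

/-- The Jacobian determinant. -/
noncomputable def Jac {ι : Type} [Fintype ι] [DecidableEq ι] (P : ι → MvPolynomial ι ℂ) :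
    MvPolynomial ι ℂ := (Matrix.of fun j k => pderiv k (P j)).det

/-- ROOT. Elementary facts on simply laced root systems.
Proofs. (1) integral positive definite form: `v ≠ 0` has `form v v > 0` and it is even.
(2) finiteness: the real form is `≥ δ |v|²`. (3) `Wg` is a group of permutations of the finite set
of vectors of norm two, which contains the basis `al k`. (4) `β = β₊ - β₋` with disjoint supports,
`(β₊, β₋) ≤ 0`, so if both are nonzero `2 = (β,β) ≥ (β₊,β₊) + (β₋,β₋) ≥ 4`. (5) `s_i β = β - k α_i` has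
norm two; a coordinate `≠ i` of `β` is positive (otherwise `β = m α_i`, `m = 1`), and is not changed,
so `s_i β ≥ 0` by (4). (6) by (4), as `W_I` preserves the form and the coordinates outside of `I`
(`form_Wg`, `Wg_supp`). (7) induction on `∑ β_k`: `2 = ∑ β_k (β, α_k)`, so some
`k` (in `I`) has `β_k > 0`, `(β, α_k) > 0`; if `β ≠ α_k` apply (5). (8) `λ = ∑_{β ∈ Φ⁺_I} β` satisfies
`(λ, α_k) = 2` for `k ∈ I` by (5) (`s_k λ = λ - 2 α_k`); choose `g ∈ W_I` with the maximal value
`∑_j (g λ)_j x j`; compare with `g s_k`. -/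
def S_ROOT : Prop := ∀ (ι : Type) [Fintype ι] [DecidableEq ι] (c : Matrix ι ι ℤ), IsADE c →
  (∀ v : ι → ℤ, v ≠ 0 → 2 ≤ form c v v) ∧
  (∀ I : Set ι, (PR c I).Finite) ∧
  (∀ I : Set ι, Finite (Wg c I)) ∧
  (∀ β : ι → ℤ, form c β β = 2 → (∀ k, 0 ≤ β k) ∨ (∀ k, β k ≤ 0)) ∧
  (∀ I : Set ι, ∀ i ∈ I, ∀ β ∈ PR c I, β ≠ al i → sr c (al i) β ∈ PR c I) ∧
  (∀ I : Set ι, ∀ g ∈ Wg c I, ∀ β ∈ PR c I, g β ∈ PR c I ∨ -(g β) ∈ PR c I) ∧
  (∀ I : Set ι, ∀ β ∈ PR c I, ∃ g ∈ Wg c I, ∃ i ∈ I, g (al i) = β) ∧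
  (∀ (I : Set ι) (x : ι → ℝ), ∃ g ∈ Wg c I, ∀ k ∈ I, 0 ≤ ∑ j, ((g (al k) j : ℤ) : ℝ) * x j)

/-- QP. If `q` is invariant under `s_k` and has jet weight `≤ N` then `α_k^(2N) q ∈ B_k`.
Proof. Put `a_n = lin α_k n = X (k,n)` and `y_{j,n} = lin (2 α_j - c_{jk} α_k) n` for `j ≠ k` (these lie
in `B_k`); the `a_n`, `y_{j,n}` are algebra generators of `C` and `s_k a_n = -a_n`, `s_k y = y`. Writing
`q` as a polynomial in these (linear change of variables) the invariance means that only
monomials of even degree in the `a_n` occur. One has `a_0^{2n-1} a_n ∈ B_k` for `n ≥ 1` by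
induction: `D n (a_0²) = 2 a_0 a_n + ∑_{0<i<n} a_i a_{n-i}`, so `a_0^{2n-1} a_n = ½ (a_0^{2n-2} D n (a_0²) -
∑ (a_0^{2i-1} a_i)(a_0^{2(n-i)-1} a_{n-i}))`. Hence for a monomial `a_0^e ∏_{i=1}^r a_{n_i}` with
`n_i ≥ 1`, `∑ n_i ≤ N`, `e + r` even: `a_0^{2N}` times it is `a_0^{2N - 2∑n_i + e + r} ∏ (a_0^{2n_i-1} a_{n_i})`,
an element of `B_k`. -/
def S_QP : Prop := ∀ (ι : Type) [Fintype ι] [DecidableEq ι] (c : Matrix ι ι ℤ), IsADE c →
  ∀ (k : ι) (N : ℕ) (q : Fk ι ℂ), act (sr c (al k)) q = q → JW N q →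
    lin (al k) 0 ^ (2 * N) * q ∈ B c (al k)

/-- TOR. `C/B_k` has no `b`-torsion if `b` is `s_k`-invariant and not divisible by `α_k`.
Proof. `emb b * u ∈ B_k` is invariant, so `u` is invariant under `s_k` (`b ≠ 0`). Let `JW N u`;
`v = α_k^{2N} u ∈ B_k` (QP), `w = b u ∈ B_k`, `b v = α_k^{2N} w`. Let `Φ : C → C` be the algebra
homomorphism with `Φ(X (k,n)) = D n (lin α_k 0 ^ 2)`, `Φ(X (j,n)) = lin (2α_j - c_{jk} α_k) n` for
`j ≠ k`; it is injective (leading monomials / algebraic independence) with image `B_k`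
(if `form v α_k = 0` then `lin v n = ∑_{j≠k} (v_j/2) lin (2α_j - c_{jk}α_k) n`), and
`Φ(X (k,0)) = α_k²`. By QP with `N = 0`, `emb b ∈ B_k`, more precisely `emb b = Φ(b')` and `b'` is not
divisible by the prime `X (k,0)` (otherwise `α_k ∣ b`). From
`b' v' = X (k,0)^N w'` one gets `X (k,0)^N ∣ v'`, so `v = α_k^{2N} u'` with `u' ∈ B_k`, and `u = u'`. -/
def S_TOR : Prop := S_QP → ∀ (ι : Type) [Fintype ι] [DecidableEq ι] (c : Matrix ι ι ℤ), IsADE c →
  ∀ (k : ι) (b : MvPolynomial ι ℂ) (u : Fk ι ℂ), act0 (sr c (al k)) b = b →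
    ¬ (X k : MvPolynomial ι ℂ) ∣ b → emb b * u ∈ B c (al k) → u ∈ B c (al k)

/-- TH. The sums `th` are invariant, and `th c I ∅ N` is a positive multiple of `Δ_I^(2N)`.
Proof: `Wg c I` is finite (ROOT), `s_i Δ_I = - Δ_I` by ROOT (5). -/
def S_TH : Prop := S_ROOT → ∀ (ι : Type) [Fintype ι] [DecidableEq ι] (c : Matrix ι ι ℤ), IsADE c →
  ∀ (I J : Set ι) (N : ℕ),
    (∀ i ∈ I, act0 (sr c (al i)) (th c I J N) = th c I J N) ∧
    ∃ n : ℕ, n ≠ 0 ∧ th c I ∅ N = C (n : ℂ) * Jc c I ∅ ^ (2 * N)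

/-- REG2. `Δ_I^(2N)` and `b = ∑_{i ∈ I} th c I {i} N` are relatively prime.
Proof. It suffices that `lin0 β ∤ b` for `β ∈ Φ⁺_I` (these linear forms are prime). Choose a real
point `x` with `β(x) = 0`, `γ(x) ≠ 0` for the other `γ ∈ Φ⁺_I` (no such `γ` is proportional to `β`:
both have norm two; a subspace is not a finite union of proper ones). By ROOT (8) there is
`g ∈ W_I` such that `x' = x∘g` has `x' k ≥ 0` for `k ∈ I`. Exactly one root `γ₀ ∈ Φ⁺_I` vanishes at `x'`
(`γ(x') = (gγ)(x)`, ROOT (6)); if `k ∈ I` and `(γ₀)_k > 0` then `x' k = 0`, so `α_k = γ₀`: `γ₀ = α_i` is simple.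
So `Jc c I {i}` does not vanish at `x'`. Finally `b(x) = ∑_i ∑_w Jc c I {i} (x∘w)^{2N}` is a sum of
nonnegative real numbers, the term of `i`, `w = g` is positive. -/
def S_REG2 : Prop := S_ROOT → ∀ (ι : Type) [Fintype ι] [DecidableEq ι] (c : Matrix ι ι ℤ),
  IsADE c → ∀ (I : Finset ι) (N : ℕ),
    IsRelPrime (Jc c I ∅ ^ (2 * N)) (∑ i ∈ I, th c I {i} N)

/-- REG3. Regularity of `Δ^(2N), b, e` where `e = ∑_{i ≠ j} th c univ {i,j} N`.
Proof (devissage). Let `Δ = Jc c univ ∅`, `b` as in REG2 (`I = univ`).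
(a) Let `β ∈ Φ⁺`. Modulo `β`, `b` is a positive multiple of `J_β^{2N}`, `J_β` = product of the
positive roots `≠ β` (`w(Jc {i})` is divisible by `β` unless `w α_i = ± β`, and then it is
`± J_β`; there is such a `w` by ROOT (7)). For `γ ∈ Φ⁺`, `γ ≠ β`, `e ∉ (β, γ)`: choose a real point `x` with
`β(x) = γ(x) = 0` at which only the roots in the span of `β, γ` vanish; move it to a dominant point
`x' = x∘g` (ROOT (8)); the roots vanishing at `x'` are combinations of the simple roots
vanishing at `x'`, and they span a space of dimension two, so exactly two simple roots `α_i`,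
`α_j` vanish at `x'` and all roots vanishing at `x'` lie in their span: `Jc univ {i,j} (x') ≠ 0` and
`e(x) > 0` as a sum of even powers of real numbers. Hence in the domain `O/(β)` (a polynomial ring) `e` is
relatively prime to `b`: if `e x ∈ (β, b)` then `x ∈ (β, b)`.
(b) Show by induction on the number of factors of a product `A = β₁ ⋯ β_r` of positive roots: if
`e x = A y + b z` then `x ∈ (A, b)`. `A = 1`: clear. `A = β A'`: by induction `x = A' u + b v`, so
`b (z - e v) = A' (e u - β y)`; `b` and `A'` are relatively prime, so `z - e v = A' k`, `e u = β y + b k`,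
and `u ∈ (β, b)` by (a), so `x ∈ (A, b)`. -/
def S_REG3 : Prop := S_ROOT → S_REG2 → ∀ (ι : Type) [Fintype ι] [DecidableEq ι]
  (c : Matrix ι ι ℤ), IsADE c → 2 ≤ Fintype.card ι → ∀ (N : ℕ) (x y z : MvPolynomial ι ℂ),
    (∑ i, ∑ j ∈ Finset.univ.erase i, th c Set.univ {i, j} N) * x =
      Jc c Set.univ ∅ ^ (2 * N) * y + (∑ i, th c Set.univ {i} N) * z →
    ∃ u v, x = Jc c Set.univ ∅ ^ (2 * N) * u + (∑ i, th c Set.univ {i} N) * v

/-- LEN. An element of `W_I` which maps the simple roots of `I` to positive roots is the identity.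
Proof. Let `g = s_{i_1} ⋯ s_{i_n}` be a shortest expression, `n ≥ 1`. Then `g α_{i_n} < 0`: otherwise
`s_{i_1} ⋯ s_{i_{n-1}} α_{i_n} < 0`; let `k` be maximal with `s_{i_k} ⋯ s_{i_{n-1}} α_{i_n} < 0`; by ROOT (5)
`s_{i_{k+1}} ⋯ s_{i_{n-1}} α_{i_n} = α_{i_k}`, so with `u = s_{i_{k+1}} ⋯ s_{i_{n-1}}`, `u s_{i_n} u⁻¹ = s_{i_k}`,
`s_{i_k} u s_{i_n} = u`, and `g` has a shorter expression. -/
def S_LEN : Prop := S_ROOT → ∀ (ι : Type) [Fintype ι] [DecidableEq ι] (c : Matrix ι ι ℤ),
  IsADE c → ∀ (I : Set ι), ∀ g ∈ Wg c I, (∀ k ∈ I, g (al k) ∈ PR c I) → g = 1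

/-- JAC. The Jacobian determinant of generators of the invariants of `W_I` is a nonzero multiple of
`Δ_I`.
Proof. `J = Jac P`. (1) For `i ∈ I`, `s_i J = - J` (chain rule, `det s_i = -1`), so for each reflection
`s_β`, `β ∈ Φ⁺_I` (conjugate to some `s_i` by ROOT (7)), `s_β J = -J` and `J` vanishes on `β = 0`:
`Δ_I ∣ J`, `J = Δ_I q` (the linear forms are prime and pairwise not proportional).
(2) Stabilisers. Let `x₀ : ι → ℂ` be a point at which no root of `Φ⁺_I`, or exactly one root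
`β ∈ Φ⁺_I`, vanishes. If `w ∈ W_I`, `x₀∘w = x₀`, then `w = 1` resp. `w ∈ {1, s_β}`. Proof: let
`x₀ = a + i b`; replace `x₀` by the real point `x = a + t b` with a real `t` such that the same roots
vanish at `x` as at `x₀` (`w` fixes it too); conjugating, by ROOT (8) we may assume that `x k ≥ 0` for
`k ∈ I`. If `w ≠ 1` then by LEN (and ROOT (6)) some `k ∈ I` has `-w α_k ∈ Φ⁺_I`, and
`α_k(x) = α_k(x∘w) = (w α_k)(x) ≤ 0`, so `α_k(x) = 0`. So if no root vanishes, `w = 1`. In the
other case `β = α_k`, and `w' = w s_k` fixes `x` too; if `w' ≠ 1` then `-w' α_k ∈ Φ⁺_I` by the same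
argument, but `w' α_k = - w α_k` is positive: contradiction.
(3) Claim: `q(x₀) ≠ 0` for such a point `x₀`. Assume `β(x₀) = 0` (the other case is simpler: use
`y_1, …, y_l` linear coordinates and `κ` below without invariance). Let `y_1 = β²`, and `y_2, …, y_l` linear, a
basis of the forms orthogonal to `β`; let `κ` be an `s_β`-invariant polynomial with `κ(x₀) ≠ 0` which
vanishes to the order `≥ 3` at all the points `x₀∘w ≠ x₀` (`w ∈ W_I`; note that
`s_β` permutes them). Let `F_1 = ∑_{w ∈ W_I} w (κ β²)`, `F_j = ∑_w w (κ (y_j - y_j(x₀)))`. These are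
invariants, i.e. polynomials in the `P`, so `det(∂F/∂x) = det(∂F/∂P) · J` is divisible by
`Δ_I q`. Near `x₀`, up to terms which vanish to the order 3, `F_1 = 2 κ β²`, `F_j = 2 κ (y_j - y_j(x₀))`;
restricted to the line `x₀ + t v`, `v` the direction orthogonal to the `y_j`, `β(v) ≠ 0`, the
determinant is `const · t + O(t²)` with `const ≠ 0`; as `Δ_I` vanishes at `t = 0`, `q(x₀) ≠ 0`.
(4) `q` is constant: otherwise choose a complex line which avoids the finitely many subspaces
`β = γ = 0` (`β ≠ γ ∈ Φ⁺_I`, codimension two) and on which `q` is not constant; `q` has a zero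
on it, at a point as in (2): contradiction. And `J ≠ 0` by (3).
(The library has `jac_ne_zero`, `exists_invariant` for points with trivial stabiliser in
Pool/Graph/R_pool_sql_team_seeded_64922ed1/X269/CT/Jac.lean.) -/
def S_JAC : Prop := S_ROOT → S_LEN → ∀ (ι : Type) [Fintype ι] [DecidableEq ι] (c : Matrix ι ι ℤ),
  IsADE c → ∀ (I : Finset ι) (P : ι → MvPolynomial ι ℂ), Gen c I P →
    ∃ κ : ℂ, κ ≠ 0 ∧ Jac P = C κ * Jc c I ∅

/-- JINV (no root system). If `f` has jet weight `≤ N` then `(Jac P)^(2N) f` lies in the algebra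
generated by `O` and the `D n (P j)`.
Proof. For `n ≥ 1`, `D n (emb (P j)) = ∑_k emb(∂P_j/∂x_k) X (k,n) + L`, where `L` is a sum of elements
of `O` times products of at least two variables `X (k,m)` with `m ≥ 1` and total jet weight `n`.
Multiplying by the adjugate matrix: `J X (k,n) = ∑_j adj_{kj} (D n (P j) - L_j)`. By induction on `n`,
`J^{2n-1} X (k,n) ∈ RO P` for `n ≥ 1`: `J^{2n-2}` times a product `∏_{i=1}^r X (k_i,m_i)`, `r ≥ 2`,
`∑ m_i = n` is `J^{r-2} ∏ J^{2m_i-1} X (k_i,m_i)`. So for a monomial of jet weight `≤ N`, `J^{2N}` times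
it lies in `RO P`. -/
def S_JINV : Prop := ∀ (ι : Type) [Fintype ι] [DecidableEq ι] (P : ι → MvPolynomial ι ℂ) (N : ℕ)
  (f : Fk ι ℂ), JW N f → emb (Jac P) ^ (2 * N) * f ∈ RO P

/-- H3. The same for elements of `B_i`, with the product of the roots different from `α_i`.
Proof. Let `φ : O → O`, `φ(X i) = α_i²`, `φ(X k) = lin0 (2α_k - c_{ki} α_i)` for `k ≠ i`, an injective
homomorphism, the image is the ring of `s_i`-invariants, and `Φ : C → C`, `Φ(X (k,n)) =
D n (emb (φ (X k)))`; then `Φ(D n f) = D n (Φ f)`, `Φ(emb g) = emb (φ g)` and `Φ` maps `C` onto `B_i`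
(if `form v α_i = 0` then `lin v n = ∑_{k≠i} (v_k/2) lin (2α_k - c_{ki}α_i) n`), respecting jet
weights: an element `f ∈ B_i` with `JW N f` is `Φ(f')` with `JW N f'` (take the
components of jet weight `≤ N` of any preimage, everything is graded by the jet weight). As `P j` is
`s_i`-invariant, `P j = φ(P' j)`. The chain rule: `Jac P = φ(Jac P') · det(∂φ(X k)/∂x_m) =
φ(Jac P') · 2^{l-1} · 2 α_i`. By JAC, `Jac P = κ Δ_I = κ α_i Jc c I {i}`, so `φ(Jac P')` is a nonzero
multiple of `Jc c I {i}`. Apply `Φ` to JINV for `P'` and `f'`: `Φ(RO P') ⊆ RO P`. -/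
def S_H3 : Prop := S_ROOT → S_LEN → S_JAC → S_JINV → ∀ (ι : Type) [Fintype ι] [DecidableEq ι]
  (c : Matrix ι ι ℤ), IsADE c → ∀ (I : Finset ι) (P : ι → MvPolynomial ι ℂ), Gen c I P →
    ∀ i ∈ I, ∀ (N : ℕ) (f : Fk ι ℂ), f ∈ B c (al i) → JW N f →
      emb (Jc c I {i}) ^ (2 * N) * f ∈ RO P

/-- IND (no root system). If `Jac P ≠ 0` then the `D n (P j)` are algebraically independent.
Proof (Jacobian criterion). `∂(D n (P j))/∂X (k,m) = D (n-m) (∂P_j/∂x_k)` (`0` for `m > n`): the
matrix is block triangular with the diagonal blocks `(∂P_j/∂x_k)`, so a relation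
`∑_{n ≤ N, j} h_{j,n} ∂(D n (P j))/∂X (k,m) = 0` for all `k, m` with `h_{j,n} ∈ C` implies `h = 0`
(look at `m = N` first). If `H(D n (P j)) = 0` with `H ≠ 0` of minimal degree, apply `∂/∂X (k,m)`:
all `(∂H/∂Y_{j,n})(D n (P j))` vanish, so `∂H/∂Y_{j,n} = 0` by minimality, `H` is constant,
contradiction. -/
def S_IND : Prop := ∀ (ι : Type) [Fintype ι] [DecidableEq ι] (P : ι → MvPolynomial ι ℂ),
  Jac P ≠ 0 → AlgebraicIndependent ℂ fun p : ι × ℕ => D p.2 (emb (P p.1))

/-- RRG. Regularity passes from `O` to the algebra `RR P` (and to `C`).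
Proof. Let `S ⊆ O` be the ring of `W_I`-invariants, `S = ℂ[P_j]`. (0) if `a, b ∈ O` are relatively
prime then `emb a`, `emb b` are so in `C` (polynomial ring over `O`). (1) `S`-version of the first
statement: `x = a t` in `O`, `t` is invariant as `a ≠ 0` (if `a = 0` then `b` is a unit...) . (2) `S`-version of the second:
average `u`, `v` over the finite group `W_I` (`act0 w` is a ring homomorphism fixing `a, b, x`).
(3) By the algebraic independence `RR P` is a free module over `emb S`, with the basis of the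
monomials in the `D n (P j)`, `n ≥ 1`; compare the coefficients. -/
def S_RRG : Prop := S_ROOT → ∀ (ι : Type) [Fintype ι] [DecidableEq ι] (c : Matrix ι ι ℤ),
  IsADE c → ∀ (I : Finset ι) (P : ι → MvPolynomial ι ℂ), Gen c I P →
  (AlgebraicIndependent ℂ fun p : ι × ℕ => D p.2 (emb (P p.1))) →
  ∀ a b e : MvPolynomial ι ℂ, a ∈ Algebra.adjoin ℂ (Set.range P) →
    b ∈ Algebra.adjoin ℂ (Set.range P) → e ∈ Algebra.adjoin ℂ (Set.range P) →
    a ≠ 0 → IsRelPrime a b →
    (∀ u v : Fk ι ℂ, emb b * u = emb a * v → ∃ t, u = emb a * t) ∧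
    (∀ u ∈ RR P, ∀ v ∈ RR P, emb b * u = emb a * v → ∃ t ∈ RR P, u = emb a * t) ∧
    ((∀ x y z : MvPolynomial ι ℂ, e * x = a * y + b * z → ∃ u v, x = a * u + b * v) →
      ∀ x ∈ RR P, ∀ y ∈ RR P, ∀ z ∈ RR P, emb e * x = emb a * y + emb b * z →
        ∃ u ∈ RR P, ∃ v ∈ RR P, x = emb a * u + emb b * v)

/-- E1. The functions on arcs which are in all `B_i`, `i ∈ I`, are the polynomials in the
`D n (P j)`, which are algebraically independent. -/
def S_E1 : Prop := ∀ (ι : Type) [Fintype ι] [DecidableEq ι] (c : Matrix ι ι ℤ),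
  IsADE c → ∀ (I : Finset ι) (P : ι → MvPolynomial ι ℂ), Gen c I P →
    (AlgebraicIndependent ℂ fun p : ι × ℕ => D p.2 (emb (P p.1))) ∧
    ∀ f : Fk ι ℂ, (∀ i ∈ I, f ∈ B c (al i)) → f ∈ RR P

/-- E1 from the parts.
Proof. The independence is IND + JAC. Let `f ∈ B_i` for all `i ∈ I`; `f` is invariant under all `s_i`,
`i ∈ I` (`B_inv`), so under `W_I`; let `JW N f`. By JINV and JAC, `emb(Δ_I)^{2N} f ∈ RO P`. By H3,
`emb(Jc c I {i})^{2N} f ∈ RO P` for `i ∈ I`. Elements of `RO P` which are invariant under `W_I` lie in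
`RR P` (write it as `∑ emb(g_μ) (monomials μ in the D n (P j))`, and average over the group: the
`D n (P j)` are invariant, the averages of the `g_μ` lie in `S = ℂ[P_j]`). Hence (with TH)
`emb(a) f ∈ RR P` for `a = Δ_I^{2N}` and, applying `w` and summing over `W_I`, `emb(b) f ∈ RR P` for
`b = ∑_{i∈I} th c I {i} N`. With `u = emb(a) f`, `v = emb(b) f`: `emb b * u = emb a * v`, so
`u = emb a * t`, `t ∈ RR P` by RRG and REG2, and `f = t`. -/
def S_E1imp : Prop := S_ROOT → S_LEN → S_TH → S_REG2 → S_JAC → S_JINV → S_H3 → S_IND → S_RRG → S_E1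

/-- CH1 (the key lemma for Chevalley's theorem; `I = univ`). If `∑ F_i G_i = 0` with invariant `F_i`,
`F_0` is not in the ideal generated by `F_1, …, F_m` in the ring of invariants, and `G_0` is
homogeneous, then `G_0` is in the ideal of `O` generated by the invariants without constant term.
Proof. Induction on the degree `d` of `G_0` (for all data at the same time). `d = 0`: `G_0` is a
constant; if it is `≠ 0`, solve for `F_0` and average over `W` (finite by ROOT): contradiction.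
`d > 0`: for each `i : ι`, `∑_j F_j (G_j - s_i G_j) = 0`, and `G_j - s_i G_j = α_i G'_j`, so
`∑ F_j G'_j = 0`, `G'_0` homogeneous of degree `d - 1`, `G'_0 ∈ ideal` by induction. So
`G_0 ≡ s_i G_0` modulo the ideal (which is stable under `W`), hence `G_0 ≡ w G_0` for `w ∈ W`, and
`G_0 ≡` its average, an invariant without constant term. -/
def S_CH1 : Prop := S_ROOT → ∀ (ι : Type) [Fintype ι] [DecidableEq ι] (c : Matrix ι ι ℤ),
  IsADE c → ∀ (m d : ℕ) (F G : Fin (m + 1) → MvPolynomial ι ℂ),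
    (∀ j i, act0 (sr c (al i)) (F j) = F j) →
    (¬ ∃ r : Fin m → MvPolynomial ι ℂ, (∀ j i, act0 (sr c (al i)) (r j) = r j) ∧
      F 0 = ∑ j : Fin m, r j * F j.succ) →
    (G 0).IsHomogeneous d → ∑ j, F j * G j = 0 →
    G 0 ∈ Ideal.span {f : MvPolynomial ι ℂ | (∀ i, act0 (sr c (al i)) f = f) ∧
      constantCoeff f = 0}

/-- CHEV (Chevalley's theorem). The ring of invariants of the Weyl group is generated by `|ι|`
elements. -/
def S_CHEV : Prop := ∀ (ι : Type) [Fintype ι] [DecidableEq ι] (c : Matrix ι ι ℤ),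
  IsADE c → ∃ P : ι → MvPolynomial ι ℂ, Gen c Finset.univ P

/-- CHEV from CH1.
Proof. (1) The ideal `𝔞` of `O` generated by the invariants without constant term is generated by
finitely many homogeneous invariants; choose homogeneous invariants `F_1, …, F_r` of degrees
`d_i > 0` generating `𝔞` with `r` minimal (so no `F_i` is in the ideal generated by the others).
(2) They generate the algebra of invariants: induction on the degree of a homogeneous invariant
`f = ∑ F_i g_i`, average over `W`. (3) They are algebraically independent: let `H ≠ 0` be a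
polynomial with `H(F) = 0`, weighted homogeneous (weights `d_i`) and of minimal degree. The
`H_i = (∂H/∂Y_i)(F)` are homogeneous invariants, not all zero. Choose a subset `K` of the indices,
minimal such that the `H_i`, `i ∈ K`, generate the ideal generated by all `H_i` in the ring of
invariants; `H_j = ∑_{i∈K} V_{ji} H_i` for `j ∉ K` with invariants `V_{ji}` homogeneous of degree
`d_i - d_j` (zero if negative). `0 = ∂/∂x_k H(F) = ∑_{i ∈ K} H_i (∂F_i/∂x_k + ∑_{j∉K} V_{ji} ∂F_j/∂x_k)`. Fix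
`i ∈ K`; by CH1, `∂F_i/∂x_k + ∑_{j∉K} V_{ji} ∂F_j/∂x_k ∈ 𝔞` for all `k`. Multiply by `x_k` and sum (Euler):
`d_i F_i + ∑_{j∉K} d_j V_{ji} F_j ∈ ∑_k x_k 𝔞 = ∑_m (x) F_m`; the homogeneous component of degree `d_i`
shows that `F_i` lies in the ideal generated by the `F_m`, `m ≠ i`: contradiction. (4) `r = |ι|`:
`O` is integral (algebraic) over the invariants (`∏_w (T - w x_k)`), so the transcendence degrees agree
(if `r` elements are algebraically independent and `O` is algebraic over `ℂ[F]`). -/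
def S_CHEVimp : Prop := S_ROOT → S_CH1 → S_CHEV

/-- The basic invariants of the group generated by two simple reflections. -/
noncomputable def pairP {ι : Type} [Fintype ι] [DecidableEq ι] (c : Matrix ι ι ℤ) (i j : ι) :
    ι → MvPolynomial ι ℂ := fun k =>
  if c i j = 0 then
    if k = i then X i ^ 2 else if k = j then X j ^ 2 else
      lin0 ((2 : ℤ) • al k - c k i • al i - c k j • al j)
  else
    if k = i then X i ^ 2 + X i * X j + X j ^ 2
    else if k = j then (2 * X i + X j) * (X i - X j) * (X i + 2 * X j)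
    else lin0 ((3 : ℤ) • al k - (2 * c k i + c k j) • al i - (c k i + 2 * c k j) • al j)

/-- PAIR. These generate the invariants.
Proof. After the linear change of variables `x_k ↦ y_k` (`k ≠ i, j`, the linear form of `pairP`,
which is orthogonal to `α_i`, `α_j`, so fixed) the group acts on `x_i, x_j` only. `c i j = 0`: sign
changes of `x_i` and of `x_j`. `c i j = -1`: put `t_1 = 2x_i + x_j`, `t_2 = x_j - x_i`,
`t_3 = -x_i - 2x_j`, `t_1+t_2+t_3 = 0`; `s_i : x_i ↦ -x_i, x_j ↦ x_i + x_j` exchanges `t_1, t_2`, `s_j`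
exchanges `t_2, t_3`. An invariant polynomial in `x_i, x_j` is a polynomial in `t_1, t_2` (`t_3 = -t_1-t_2`); it is
the image of a polynomial in `t_1,t_2,t_3`, which can be made symmetric by averaging, so it is a
polynomial in `e_1 = 0`, `e_2(t)`, `e_3(t)` (Mathlib: `MvPolynomial.esymmAlgEquiv` or
`psum`/`esymm` results), `e_2 = -3 (x_i²+x_ix_j+x_j²)`, `e_3 = (2x_i+x_j)(x_i-x_j)(x_i+2x_j)`. -/
def S_PAIR : Prop := ∀ (ι : Type) [Fintype ι] [DecidableEq ι] (c : Matrix ι ι ℤ),
  IsADE c → ∀ i j : ι, i ≠ j → Gen c {i, j} (pairP c i j)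

end Pool.Agent.H391.SK
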