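import Pool.Agent.H391.SK.StF

/-!
# Project SK: the character. Statements.
-/

namespace Pool.Agent.H391.SK

open MvPolynomial

/-- The number of monomials of weight `N` in variables `w_{j,n}` of weight `d j + n`
(`j : ι`, `n ≥ 0`). -/
noncomputable def cnt {ι : Type} (d : ι → ℕ) (N : ℕ) : ℕ :=
  Nat.card {m : (ι × ℕ) →₀ ℕ // (m.sum fun q k => k * (d q.1 + q.2)) = N}

/-- SYM. The symbols of the common kernel are the polynomials in the jets of the basic invariants.
Proof: R1, E1 and `hc_mem_B` for `→`, ALL for `←` (`RR P ⊆ B_i`: `emb (P j) ∈ B_i` by QP with `N = 0`,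
and `B_i` is stable under `D n`: it is generated by the `D m g`, `g ∈ G`, and
`D n (D m g) = binom(m+n, n) D (m+n) g` (it suffices: `D n (lin v m)` and Leibniz for the products
`lin β a * lin β b` -- or use that the algebra generated by all `D m g` is stable)). -/
def S_SYM : Prop := ∀ (ι : Type) [Fintype ι] [DecidableEq ι] (c : Matrix ι ι ℤ), IsADE c →
  ∀ P : ι → MvPolynomial ι ℂ, Gen c Finset.univ P → ∀ (p d : ℕ), 1 ≤ p → ∀ x : Fk ι ℂ,
    x.IsHomogeneous d → (x ∈ RR P ↔ ∃ a ∈ KerS c (p : ℂ) Set.univ, a.totalDegree ≤ d ∧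
      homogeneousComponent d a = x)

def S_SYMimp : Prop := S_R1 → S_ALL → S_QP → S_E1 → S_SYM

/-- CHAR. The graded dimension of the common kernel at an integer `p ≥ 1`.
Proof. By SYM and DIM (both directions; take components of weight `N` of the elements `a`, SPW; RR P is
stable under taking homogeneous components and components of weight `N`, its generators
being homogeneous for both gradings) the dimension is that of `RR P ⊓ WtN N`. The monomials in the
`D n (P j)` (weight `d j + n`: `emb (P j)` has weight `d j` and `D n` raises the weight by `n`) are a basis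
of `RR P` by the algebraic independence (E1), those of weight `N` a basis of `RR P ⊓ WtN N`. -/
def S_CHAR : Prop := ∀ (ι : Type) [Fintype ι] [DecidableEq ι] (c : Matrix ι ι ℤ), IsADE c →
  ∀ (P : ι → MvPolynomial ι ℂ) (d : ι → ℕ), (∀ j, 0 < d j ∧ (P j).IsHomogeneous (d j)) →
    Gen c Finset.univ P → ∀ (p N : ℕ), 1 ≤ p →
      Module.finrank ℂ (KerS c (p : ℂ) Set.univ ⊓ WtN ι ℂ N : Submodule ℂ (Fk ι ℂ)) = cnt d N

def S_CHARimp : Prop := S_SPW → S_DIM → S_E1 → S_SYM → S_CHAR

end Pool.Agent.H391.SK
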