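import Pool.Agent.H391.SK.AsmA
import Pool.Agent.H391.SK.AsmC
import Pool.Agent.H391.SK.StG
import Pool.Agent.H391.SK.P.ROOT
import Pool.Agent.H391.SK.P.LEN
import Pool.Agent.H391.SK.P.QP
import Pool.Agent.H391.SK.P.TOR
import Pool.Agent.H391.SK.P.TH
import Pool.Agent.H391.SK.P.REG2
import Pool.Agent.H391.SK.P.REG3
import Pool.Agent.H391.SK.P.JINV
import Pool.Agent.H391.SK.P.H3
import Pool.Agent.H391.SK.P.IND
import Pool.Agent.H391.SK.P.RRG
import Pool.Agent.H391.SK.P.E1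
import Pool.Agent.H391.SK.P.CH1
import Pool.Agent.H391.SK.P.PAIR
import Pool.Agent.H391.SK.P.GAR
import Pool.Agent.H391.SK.P.EQ
import Pool.Agent.H391.SK.P.STEP
import Pool.Agent.H391.SK.P.MID
import Pool.Agent.H391.SK.P.GLUE
import Pool.Agent.H391.SK.P.REL
import Pool.Agent.H391.SK.P.VA
import Pool.Agent.H391.SK.P.CLO
import Pool.Agent.H391.SK.P.LC
import Pool.Agent.H391.SK.P.LFT
import Pool.Agent.H391.SK.P.R1
import Pool.Agent.H391.SK.P.LA
import Pool.Agent.H391.SK.P.LAG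
import Pool.Agent.H391.SK.P.SPW
import Pool.Agent.H391.SK.P.DIM
import Pool.Agent.H391.SK.P.DEQ
import Pool.Agent.H391.SK.P.FIN
import Pool.Agent.H391.SK.P.GENE
import Pool.Agent.H391.SK.P.SYM
import Pool.Agent.H391.SK.P.CHAR

/-!
# Project SK: the final assembly
-/

namespace Pool.Agent.H391.SK

theorem e1_of (hJAC : S_JAC) : S_E1 :=
  P_E1.main P_ROOT.main P_LEN.main P_TH.main P_REG2.main hJAC P_JINV.main P_H3.main P_IND.main
    P_RRG.main

theorem mid_of (hJAC : S_JAC) (hCHEV : S_CHEV) : S_MID :=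
  P_MID.main P_ROOT.main P_LEN.main P_GAR.main P_QP.main P_TOR.main P_TH.main P_REG2.main
    P_REG3.main hCHEV (e1_of hJAC) P_RRG.main P_EQ.main (P_STEP.main P_LEN.main)

theorem r1 : S_R1 := P_R1.main a10

theorem clo : S_CLO := P_CLO.main P_REL.main P_VA.main

theorem all_of (hJAC : S_JAC) (hCHEV : S_CHEV) : S_ALL :=
  asm_all P_LC.main clo P_LFT.main (e1_of hJAC) P_PAIR.main (mid_of hJAC hCHEV) P_GLUE.main r1

theorem deq_of (hJAC : S_JAC) (hCHEV : S_CHEV) : S_DEQ :=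
  P_DEQ.main r1 (all_of hJAC hCHEV) P_SPW.main P_DIM.main

theorem fin_of (hJAC : S_JAC) (hCHEV : S_CHEV) : S_FIN :=
  P_FIN.main P_SPW.main (deq_of hJAC hCHEV) P_LA.main

theorem gene : S_GENE := P_GENE.main P_SPW.main P_LAG.main

theorem sym_of (hJAC : S_JAC) (hCHEV : S_CHEV) : S_SYM :=
  P_SYM.main r1 (all_of hJAC hCHEV) P_QP.main (e1_of hJAC)

theorem char_of (hJAC : S_JAC) (hCHEV : S_CHEV) : S_CHAR :=
  P_CHAR.main P_SPW.main P_DIM.main (e1_of hJAC) (sym_of hJAC hCHEV)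

end Pool.Agent.H391.SK
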