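import Pool.Agent.H391.SK.DefsD

/-!
# Project SK: basic lemmas
-/

set_option linter.unusedSectionVars false
set_option linter.unusedSimpArgs false

namespace Pool.Agent.H391.SK

open MvPolynomial

variable {ι : Type} [Fintype ι] [DecidableEq ι]

/-! ### The form -/

theorem form_add_left (c : Matrix ι ι ℤ) (v w u : ι → ℤ) :
    form c (v + w) u = form c v u + form c w u := by
  simp [form, add_mul, Finset.sum_add_distrib]

theorem form_smul_left (c : Matrix ι ι ℤ) (m : ℤ) (v u : ι → ℤ) :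
    form c (m • v) u = m * form c v u := by
  simp [form, mul_assoc, Finset.mul_sum]

theorem form_sub_left (c : Matrix ι ι ℤ) (v w u : ι → ℤ) :
    form c (v - w) u = form c v u - form c w u := by
  simp [form, sub_mul, Finset.sum_sub_distrib]

theorem form_neg_left (c : Matrix ι ι ℤ) (v u : ι → ℤ) : form c (-v) u = - form c v u := by
  simp [form, Finset.sum_neg_distrib]

theorem form_add_right (c : Matrix ι ι ℤ) (v w u : ι → ℤ) :
    form c u (v + w) = form c u v + form c u w := by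
  simp [form, mul_add, Finset.sum_add_distrib]

theorem form_smul_right (c : Matrix ι ι ℤ) (m : ℤ) (v u : ι → ℤ) :
    form c u (m • v) = m * form c u v := by
  simp only [form, Pi.smul_apply, smul_eq_mul, Finset.mul_sum]
  refine Finset.sum_congr rfl fun i _ => Finset.sum_congr rfl fun j _ => by ring

theorem form_sub_right (c : Matrix ι ι ℤ) (v w u : ι → ℤ) :
    form c u (v - w) = form c u v - form c u w := by
  simp [form, mul_sub, Finset.sum_sub_distrib]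

theorem form_neg_right (c : Matrix ι ι ℤ) (v u : ι → ℤ) : form c u (-v) = - form c u v := by
  simp [form, Finset.sum_neg_distrib]

theorem form_symm {c : Matrix ι ι ℤ} (hc : ∀ i j, c i j = c j i) (v w : ι → ℤ) :
    form c v w = form c w v := by
  unfold form
  rw [Finset.sum_comm]
  refine Finset.sum_congr rfl fun i _ => Finset.sum_congr rfl fun j _ => ?_
  rw [hc j i]; ring

theorem form_al_al (c : Matrix ι ι ℤ) (i j : ι) : form c (al i) (al j) = c i j := by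
  simp [form, al, Pi.single_apply]

theorem form_al_right (c : Matrix ι ι ℤ) (v : ι → ℤ) (j : ι) :
    form c v (al j) = ∑ i, v i * c i j := by
  simp [form, al, Pi.single_apply]

@[simp] theorem sr_apply (c : Matrix ι ι ℤ) (β v : ι → ℤ) : sr c β v = v - form c v β • β := rfl

theorem sr_sr {c : Matrix ι ι ℤ} {β : ι → ℤ} (h : form c β β = 2) (v : ι → ℤ) :
    sr c β (sr c β v) = v := by
  simp only [sr_apply, form_sub_left, form_smul_left, h]
  rw [sub_sub, ← add_smul]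
  have : form c v β + (form c v β - form c v β * 2) = 0 := by ring
  rw [this, zero_smul, sub_zero]

theorem form_sr {c : Matrix ι ι ℤ} (hc : ∀ i j, c i j = c j i) {β : ι → ℤ}
    (h : form c β β = 2) (v w : ι → ℤ) : form c (sr c β v) (sr c β w) = form c v w := by
  simp only [sr_apply, form_sub_left, form_smul_left, form_sub_right, form_smul_right, h,
    form_symm hc β w]
  ring

/-- The reflection as a linear equivalence. -/
def sre {c : Matrix ι ι ℤ} {β : ι → ℤ} (h : form c β β = 2) : (ι → ℤ) ≃ₗ[ℤ] (ι → ℤ) :=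
  LinearEquiv.ofInvolutive (sr c β) (sr_sr h)

theorem sre_apply {c : Matrix ι ι ℤ} {β : ι → ℤ} (h : form c β β = 2) (v : ι → ℤ) :
    sre h v = sr c β v := rfl

theorem IsADE.form_al {c : Matrix ι ι ℤ} (hc : IsADE c) (i : ι) : form c (al i) (al i) = 2 := by
  rw [form_al_al, hc.diag]

theorem sre_mem_Wg {c : Matrix ι ι ℤ} (hc : IsADE c) {I : Set ι} {i : ι} (hi : i ∈ I) :
    sre (hc.form_al i) ∈ Wg c I :=
  Subgroup.subset_closure ⟨i, hi, fun _ => rfl⟩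

/-- Induction on the elements of `Wg c I`. -/
theorem Wg_induction {c : Matrix ι ι ℤ} (hc : IsADE c) {I : Set ι}
    {P : ((ι → ℤ) ≃ₗ[ℤ] (ι → ℤ)) → Prop} (h1 : P 1)
    (hs : ∀ i (_ : i ∈ I) g, g ∈ Wg c I → P g → P (sre (hc.form_al i) * g))
    {g : (ι → ℤ) ≃ₗ[ℤ] (ι → ℤ)} (hg : g ∈ Wg c I) : P g := by
  have gen : ∀ g ∈ {g : (ι → ℤ) ≃ₗ[ℤ] (ι → ℤ) | ∃ i ∈ I, ∀ v, g v = sr c (al i) v},
      ∃ i ∈ I, g = sre (hc.form_al i) := by
    rintro g ⟨i, hi, h⟩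
    exact ⟨i, hi, LinearEquiv.ext h⟩
  refine Subgroup.closure_induction_left (p := fun g _ => P g) h1 ?_ ?_ hg
  · intro x hx y hy hP
    obtain ⟨i, hi, rfl⟩ := gen x hx
    exact hs i hi y hy hP
  · intro x hx y hy hP
    obtain ⟨i, hi, rfl⟩ := gen x hx
    have : (sre (hc.form_al i))⁻¹ = sre (hc.form_al i) := by
      refine inv_eq_of_mul_eq_one_left ?_
      exact LinearEquiv.ext fun v => sr_sr (hc.form_al i) v
    rw [this]
    exact hs i hi y hy hP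

theorem form_Wg {c : Matrix ι ι ℤ} (hc : IsADE c) {I : Set ι} {g : (ι → ℤ) ≃ₗ[ℤ] (ι → ℤ)}
    (hg : g ∈ Wg c I) (v w : ι → ℤ) : form c (g v) (g w) = form c v w := by
  refine Wg_induction hc (P := fun g => form c (g v) (g w) = form c v w) rfl ?_ hg
  intro i _ g _ h
  exact (form_sr hc.symm (hc.form_al i) (g v) (g w)).trans h

theorem Wg_supp {c : Matrix ι ι ℤ} (hc : IsADE c) {I : Set ι} {g : (ι → ℤ) ≃ₗ[ℤ] (ι → ℤ)}
    (hg : g ∈ Wg c I) (v : ι → ℤ) {k : ι} (hk : k ∉ I) : g v k = v k := by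
  refine Wg_induction hc (P := fun g => g v k = v k) rfl ?_ hg
  intro i hi g _ h
  have hik : k ≠ i := fun e => hk (e ▸ hi)
  show (sr c (al i) (g v)) k = v k
  simp [sr_apply, al, Pi.single_apply, hik, h]

theorem Wg_mono {c : Matrix ι ι ℤ} {I J : Set ι} (h : I ⊆ J) : Wg c I ≤ Wg c J :=
  Subgroup.closure_mono fun _ ⟨i, hi, hg⟩ => ⟨i, h hi, hg⟩

/-! ### Linear forms and the action -/

theorem lin_add (v w : ι → ℤ) (n : ℕ) : lin (v + w) n = lin v n + lin w n := by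
  simp [lin, add_mul, Finset.sum_add_distrib]

theorem lin_zero (n : ℕ) : lin (0 : ι → ℤ) n = 0 := by simp [lin]

theorem lin_smul (m : ℤ) (v : ι → ℤ) (n : ℕ) : lin (m • v) n = C ((m : ℤ) : ℂ) * lin v n := by
  simp [lin, Finset.mul_sum, mul_assoc]

theorem lin_neg (v : ι → ℤ) (n : ℕ) : lin (-v) n = - lin v n := by
  simp [lin]

theorem lin_sub (v w : ι → ℤ) (n : ℕ) : lin (v - w) n = lin v n - lin w n := by
  rw [sub_eq_add_neg, lin_add, lin_neg, sub_eq_add_neg]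

theorem lin_al (i : ι) (n : ℕ) : lin (al i) n = X (i, n) := by
  simp [lin, al, Pi.single_apply]

theorem lin_sum {κ : Type} (s : Finset κ) (a : κ → ℤ) (v : κ → (ι → ℤ)) (n : ℕ) :
    lin (∑ i ∈ s, a i • v i) n = ∑ i ∈ s, C ((a i : ℤ) : ℂ) * lin (v i) n := by
  classical
  induction s using Finset.induction_on with
  | empty => simp [lin_zero]
  | insert a s ha ih => rw [Finset.sum_insert ha, Finset.sum_insert ha, lin_add, lin_smul, ih]

theorem eq_sum_al (v : ι → ℤ) : v = ∑ k, v k • al k := by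
  funext j
  simp [al, Pi.single_apply]

theorem act_X (g : (ι → ℤ) →ₗ[ℤ] (ι → ℤ)) (k : ι) (n : ℕ) :
    act g (X (k, n)) = lin (g (al k)) n := by
  simp [act]

theorem act_lin (g : (ι → ℤ) →ₗ[ℤ] (ι → ℤ)) (v : ι → ℤ) (n : ℕ) :
    act g (lin v n) = lin (g v) n := by
  conv_rhs => rw [eq_sum_al v, map_sum]
  simp only [map_smul]
  rw [lin_sum]
  simp [lin, act, map_sum]

theorem act_comp (g h : (ι → ℤ) →ₗ[ℤ] (ι → ℤ)) (f : Fk ι ℂ) :
    act (g ∘ₗ h) f = act g (act h f) := by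
  have : act (g ∘ₗ h) = (act g).comp (act h) := by
    refine algHom_ext fun p => ?_
    obtain ⟨k, n⟩ := p
    rw [AlgHom.comp_apply, act_X, act_X, act_lin, LinearMap.comp_apply]
  rw [this, AlgHom.comp_apply]

theorem act_id (f : Fk ι ℂ) : act LinearMap.id f = f := by
  have : act (LinearMap.id : (ι → ℤ) →ₗ[ℤ] (ι → ℤ)) = AlgHom.id ℂ (Fk ι ℂ) := by
    refine algHom_ext fun p => ?_
    obtain ⟨k, n⟩ := p
    rw [act_X, LinearMap.id_apply, lin_al, AlgHom.id_apply]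
  rw [this, AlgHom.id_apply]

theorem act_mul (g h : (ι → ℤ) ≃ₗ[ℤ] (ι → ℤ)) (f : Fk ι ℂ) :
    act ((g * h : (ι → ℤ) ≃ₗ[ℤ] (ι → ℤ)) : (ι → ℤ) →ₗ[ℤ] (ι → ℤ)) f =
      act (g : (ι → ℤ) →ₗ[ℤ] (ι → ℤ)) (act (h : (ι → ℤ) →ₗ[ℤ] (ι → ℤ)) f) := by
  rw [← act_comp]; rfl

theorem act_one (f : Fk ι ℂ) :
    act ((1 : (ι → ℤ) ≃ₗ[ℤ] (ι → ℤ)) : (ι → ℤ) →ₗ[ℤ] (ι → ℤ)) f = f := act_id f

theorem act_sr_sr {c : Matrix ι ι ℤ} {β : ι → ℤ} (h : form c β β = 2) (f : Fk ι ℂ) :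
    act (sr c β) (act (sr c β) f) = f := by
  rw [← act_comp]
  have : sr c β ∘ₗ sr c β = LinearMap.id := LinearMap.ext (sr_sr h)
  rw [this, act_id]

theorem act_sre {c : Matrix ι ι ℤ} {β : ι → ℤ} (h : form c β β = 2) (f : Fk ι ℂ) :
    act ((sre h : (ι → ℤ) ≃ₗ[ℤ] (ι → ℤ)) : (ι → ℤ) →ₗ[ℤ] (ι → ℤ)) f = act (sr c β) f := rfl

/-! ### The same without jets -/

theorem lin0_add (v w : ι → ℤ) : lin0 (v + w) = lin0 v + lin0 w := by
  simp [lin0, add_mul, Finset.sum_add_distrib]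

theorem lin0_zero : lin0 (0 : ι → ℤ) = 0 := by simp [lin0]

theorem lin0_smul (m : ℤ) (v : ι → ℤ) : lin0 (m • v) = C ((m : ℤ) : ℂ) * lin0 v := by
  simp [lin0, Finset.mul_sum, mul_assoc]

theorem lin0_neg (v : ι → ℤ) : lin0 (-v) = - lin0 v := by
  simp [lin0]

theorem lin0_sub (v w : ι → ℤ) : lin0 (v - w) = lin0 v - lin0 w := by
  rw [sub_eq_add_neg, lin0_add, lin0_neg, sub_eq_add_neg]

theorem lin0_al (i : ι) : lin0 (al i) = X i := by
  simp [lin0, al, Pi.single_apply]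

theorem act0_X (g : (ι → ℤ) →ₗ[ℤ] (ι → ℤ)) (k : ι) : act0 g (X k) = lin0 (g (al k)) := by
  simp [act0]

theorem emb_lin0 (v : ι → ℤ) : emb (lin0 v) = lin v 0 := by
  simp [emb, lin0, lin]

theorem emb_X (k : ι) : emb (X k : MvPolynomial ι ℂ) = X (k, 0) := by simp [emb]

theorem emb_injective : Function.Injective (emb : MvPolynomial ι ℂ →ₐ[ℂ] Fk ι ℂ) :=
  rename_injective _ fun a b h => by simpa using h

theorem act_emb (g : (ι → ℤ) →ₗ[ℤ] (ι → ℤ)) (f : MvPolynomial ι ℂ) :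
    act g (emb f) = emb (act0 g f) := by
  have : (act g).comp emb = (emb : MvPolynomial ι ℂ →ₐ[ℂ] Fk ι ℂ).comp (act0 g) := by
    refine algHom_ext fun k => ?_
    rw [AlgHom.comp_apply, AlgHom.comp_apply, emb_X, act_X, act0_X, emb_lin0]
  exact DFunLike.congr_fun this f

theorem act0_lin0 (g : (ι → ℤ) →ₗ[ℤ] (ι → ℤ)) (v : ι → ℤ) : act0 g (lin0 v) = lin0 (g v) := by
  apply emb_injective
  rw [← act_emb, emb_lin0, emb_lin0, act_lin]

theorem act0_comp (g h : (ι → ℤ) →ₗ[ℤ] (ι → ℤ)) (f : MvPolynomial ι ℂ) :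
    act0 (g ∘ₗ h) f = act0 g (act0 h f) := by
  apply emb_injective
  rw [← act_emb, ← act_emb, ← act_emb, act_comp]

theorem act0_id (f : MvPolynomial ι ℂ) : act0 LinearMap.id f = f := by
  apply emb_injective
  rw [← act_emb, act_id]

theorem act0_mul (g h : (ι → ℤ) ≃ₗ[ℤ] (ι → ℤ)) (f : MvPolynomial ι ℂ) :
    act0 ((g * h : (ι → ℤ) ≃ₗ[ℤ] (ι → ℤ)) : (ι → ℤ) →ₗ[ℤ] (ι → ℤ)) f =
      act0 (g : (ι → ℤ) →ₗ[ℤ] (ι → ℤ)) (act0 (h : (ι → ℤ) →ₗ[ℤ] (ι → ℤ)) f) := by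
  rw [← act0_comp]; rfl

theorem act0_one (f : MvPolynomial ι ℂ) :
    act0 ((1 : (ι → ℤ) ≃ₗ[ℤ] (ι → ℤ)) : (ι → ℤ) →ₗ[ℤ] (ι → ℤ)) f = f := act0_id f

theorem act0_sr_sr {c : Matrix ι ι ℤ} {β : ι → ℤ} (h : form c β β = 2) (f : MvPolynomial ι ℂ) :
    act0 (sr c β) (act0 (sr c β) f) = f := by
  rw [← act0_comp]
  have : sr c β ∘ₗ sr c β = LinearMap.id := LinearMap.ext (sr_sr h)
  rw [this, act0_id]

/-- Invariance under the generators and under the group. -/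
theorem act_inv_iff {c : Matrix ι ι ℤ} (hc : IsADE c) (I : Set ι) (f : Fk ι ℂ) :
    (∀ i ∈ I, act (sr c (al i)) f = f) ↔
      ∀ g ∈ Wg c I, act ((g : (ι → ℤ) ≃ₗ[ℤ] (ι → ℤ)) : (ι → ℤ) →ₗ[ℤ] (ι → ℤ)) f = f := by
  constructor
  · intro h g hg
    refine Wg_induction hc (P := fun g => act (g : (ι → ℤ) →ₗ[ℤ] (ι → ℤ)) f = f)
      (act_one f) ?_ hg
    intro i hi g _ hP
    rw [act_mul, hP]
    exact h i hi
  · intro h i hi
    have := h _ (sre_mem_Wg hc hi)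
    rwa [act_sre] at this

theorem act0_sre {c : Matrix ι ι ℤ} {β : ι → ℤ} (h : form c β β = 2) (f : MvPolynomial ι ℂ) :
    act0 ((sre h : (ι → ℤ) ≃ₗ[ℤ] (ι → ℤ)) : (ι → ℤ) →ₗ[ℤ] (ι → ℤ)) f = act0 (sr c β) f := rfl

theorem act0_inv_iff {c : Matrix ι ι ℤ} (hc : IsADE c) (I : Set ι) (f : MvPolynomial ι ℂ) :
    (∀ i ∈ I, act0 (sr c (al i)) f = f) ↔
      ∀ g ∈ Wg c I, act0 ((g : (ι → ℤ) ≃ₗ[ℤ] (ι → ℤ)) : (ι → ℤ) →ₗ[ℤ] (ι → ℤ)) f = f := by
  constructor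
  · intro h g hg
    refine Wg_induction hc (P := fun g => act0 (g : (ι → ℤ) →ₗ[ℤ] (ι → ℤ)) f = f)
      (act0_one f) ?_ hg
    intro i hi g _ hP
    rw [act0_mul, hP]
    exact h i hi
  · intro h i hi
    have := h _ (sre_mem_Wg hc hi)
    rwa [act0_sre] at this

end Pool.Agent.H391.SK
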