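import Mathlib

/-!
# Screening operators on the Heisenberg Fock space: definitions

`c` is the Cartan matrix of a simply laced Lie algebra, with rows and columns indexed by the finite
type `ι` (the nodes of the Dynkin diagram). The Fock space `M(1)` is the ring of polynomials in the
variables `X (j, n)`, `j : ι`, `n : ℕ`, which stand for `√ν α_j(-n-1)`.
-/

namespace Pool.Agent.H391.SK

open MvPolynomial

/-- Cartan matrices of simply laced semisimple Lie algebras: symmetric integral matrices with `2`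
on the diagonal and `0`, `-1` off the diagonal which are positive definite. -/
structure IsADE {ι : Type} [Fintype ι] (c : Matrix ι ι ℤ) : Prop where
  symm : ∀ i j, c i j = c j i
  diag : ∀ i, c i i = 2
  off : ∀ i j, i ≠ j → c i j = 0 ∨ c i j = -1
  pos : ∀ v : ι → ℝ, v ≠ 0 → 0 < ∑ i, ∑ j, v i * (c i j : ℝ) * v j

/-- The Fock space, over a ring `A` of scalars. -/
abbrev Fk (ι A : Type) [CommSemiring A] := MvPolynomial (ι × ℕ) A

/-- `hs x m` is the coefficient of `z ^ m` in `exp (∑_{n ≥ 1} x_{n-1} z ^ n / n)`; these elements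
are determined by `hs x 0 = 1` and `(m + 1) * hs x (m + 1) = ∑_{k ≤ m} x k * hs x (m - k)`. -/
noncomputable def hs {R : Type} [CommRing R] [Algebra ℂ R] (x : ℕ → R) : ℕ → R
  | 0 => 1
  | m + 1 => ((m : ℂ) + 1)⁻¹ • ∑ k : Fin (m + 1), x k * hs x (m - k)

/-- The same for integers `m`, zero for negative `m`. -/
noncomputable def hz {R : Type} [CommRing R] [Algebra ℂ R] (x : ℕ → R) (m : ℤ) : R :=
  if 0 ≤ m then hs x m.toNat else 0

section operators

variable {ι : Type} {A : Type} [CommRing A] [Algebra ℂ A]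

/-- The substitution `x_{j,n} ↦ x_{j,n} - ν c_{ij} w^{n+1}`, where `w = z⁻¹`: the action of the
annihilation part `exp (-∑_{n ≥ 1} √ν α_i(n) z^{-n} / n)` of the vertex operator. -/
noncomputable def shf (c : Matrix ι ι ℤ) (ν : A) (i : ι) : Fk ι A →ₐ[A] Polynomial (Fk ι A) :=
  aeval fun p => Polynomial.C (X p) -
    Polynomial.C (MvPolynomial.C (ν * ((c i p.1 : ℤ) : A))) * Polynomial.X ^ (p.2 + 1)

/-- The coefficient of `z ^ j` in the vertex operator
`exp (∑_{n ≥ 1} √ν α_i(-n) z^n / n) exp (-∑_{n ≥ 1} √ν α_i(n) z^{-n} / n)` on `M(1)`. -/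
noncomputable def Sj (c : Matrix ι ι ℤ) (ν : A) (i : ι) (j : ℤ) : Fk ι A →ₗ[A] Fk ι A :=
  (Polynomial.lsum fun k : ℕ =>
    LinearMap.mulLeft A (hz (fun n => (X (i, n) : Fk ι A)) ((k : ℤ) + j))) ∘ₗ
      (shf c ν i).toLinearMap

/-- The screening operator `e^{√ν α_i}_0` on `M(1)`: the coefficient of `z⁻¹`. -/
noncomputable def Scr (c : Matrix ι ι ℤ) (ν : A) (i : ι) : Fk ι A →ₗ[A] Fk ι A := Sj c ν i (-1)

/-- The common kernel of the screening operators `e^{√ν α_i}_0`, `i ∈ I`. -/
noncomputable def KerS (c : Matrix ι ι ℤ) (ν : A) (I : Set ι) : Submodule A (Fk ι A) :=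
  ⨅ i ∈ I, LinearMap.ker (Scr c ν i)

end operators

end Pool.Agent.H391.SK
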