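import Pool.Agent.H391.SK.Defs

/-!
# Project SK, group A (rank one): definitions

`Lm A` is the ring of polynomials in `X 0, X 1, X 2, ...` (`X n` has weight `n + 1`), the rank one
Fock space; `X n` stands for `√ν α(-n-1)`.
-/

namespace Pool.Agent.H391.SK

open MvPolynomial

/-- The rank one Fock space over the ring `A`. -/
abbrev Lm (A : Type) [CommSemiring A] := MvPolynomial ℕ A

/-- `f` is homogeneous of weight `d`, where `X n` has weight `n + 1`. -/
abbrev Wt {A : Type} [CommSemiring A] (f : Lm A) (d : ℕ) : Prop :=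
  IsWeightedHomogeneous (fun n : ℕ => n + 1) f d

section

variable {A : Type} [CommRing A] [Algebra ℂ A]

/-- The substitution `X n ↦ X n - 2 ν w^(n+1)`. -/
noncomputable def shA (ν : A) : Lm A →ₐ[A] Polynomial (Lm A) :=
  aeval fun n => Polynomial.C (X n) - Polynomial.C (MvPolynomial.C (2 * ν)) * Polynomial.X ^ (n + 1)

/-- `S1 ν j` is the coefficient of `z ^ j` in `H(z) ∘ (X n ↦ X n - 2 ν z^(-n-1))`, where
`H(z) = exp (∑_{n ≥ 1} X (n-1) z ^ n / n)`:
`S1 ν j f = ∑_k hz X (k + j) * (coefficient of w ^ k in shA ν f)`. -/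
noncomputable def S1 (ν : A) (j : ℤ) : Lm A →ₗ[A] Lm A :=
  (Polynomial.lsum fun k : ℕ => LinearMap.mulLeft A (hz (X : ℕ → Lm A) ((k : ℤ) + j))) ∘ₗ
    (shA ν).toLinearMap

/-- `4 ν L_{-n}` on the Fock space of charge `m`, for `n ≥ 1`:
`∑_{a+b=n} X (a-1) X (b-1) + (2 m + 2 (ν-1) (n-1)) X (n-1) + 4 ν ∑_{k ≥ 1} k X (n+k-1) ∂/∂X (k-1)`. -/
noncomputable def LL (m ν : A) (n : ℕ) : Lm A →ₗ[A] Lm A :=
  LinearMap.mulLeft A (∑ a ∈ Finset.range (n - 1), X a * X (n - 2 - a) +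
    C (2 * m + 2 * (ν - 1) * ((n : A) - 1)) * X (n - 1)) +
  ((mkDerivation A fun k : ℕ => C (4 * ν * ((k : A) + 1)) * X (n + k) :
    Derivation A (Lm A) (Lm A)) : Lm A →ₗ[A] Lm A)

/-- `L_{-λ₁} L_{-λ₂} ⋯ 1` for a partition `λ₁ ≥ λ₂ ≥ ⋯` (up to powers of `4 ν`). -/
noncomputable def vv (m ν : A) {d : ℕ} (l : Nat.Partition d) : Lm A :=
  (l.parts.sort (· ≥ ·)).foldr (fun n f => LL m ν n f) 1

/-- The exponent vector of the monomial `∏ X (λ_i - 1)`. -/
noncomputable def mo {d : ℕ} (l : Nat.Partition d) : ℕ →₀ ℕ :=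
  (l.parts.map fun k => Finsupp.single (k - 1) 1).sum

/-- The matrix of coefficients of the vectors `vv m ν l`. -/
noncomputable def DD (m ν : A) (d : ℕ) : Matrix (Nat.Partition d) (Nat.Partition d) A :=
  fun l k => coeff (mo k) (vv m ν l)

end

/-- The number of partitions of `n`. -/
def pn (n : ℕ) : ℕ := Fintype.card (Nat.Partition n)

/-- The coefficients of `G(w) = exp (∑_{n ≥ 1} X (n-1) w ^ n / (2 ν n))`. -/
noncomputable def gs (ν : ℂ) (k : ℕ) : Lm ℂ := hs (fun n => C ((2 * ν)⁻¹) * X n) k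

/-- The composition `S_{j_r} ⋯ S_{j_1}`, `j_i = -1 - (m + 2 q (i - 1))`, i.e. the `r`-th power of
the screening operator on the Fock space of charge `m` (for the integral parameter `ν = q`). -/
noncomputable def XX (q : ℕ) (m : ℤ) : ℕ → Lm ℂ →ₗ[ℂ] Lm ℂ
  | 0 => LinearMap.id
  | r + 1 => S1 (q : ℂ) (-1 - (m + 2 * q * r)) ∘ₗ XX q m r

/-- The quadratic elements `yy n = ∑_{a+b=n} X a X b`. -/
noncomputable def yy (n : ℕ) : Lm ℂ := ∑ a ∈ Finset.range (n + 1), X a * X (n - a)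

end Pool.Agent.H391.SK
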