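import Pool.Agent.H391.SK.Defs

/-!
# Project SK: jets, reflections, the algebras `B`

Elements `v` of the root lattice are functions `ι → ℤ` (coordinates with respect to the simple
roots). `lin v n = ∑_k v_k X (k, n)`. The points of the real (complex) Cartan subalgebra are
functions `x` on `ι`: `x k` is the value of the simple root `k` at the point.
-/

namespace Pool.Agent.H391.SK

open MvPolynomial

variable {ι : Type} [Fintype ι] [DecidableEq ι]

/-- The simple roots. -/
def al (i : ι) : ι → ℤ := Pi.single i 1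

/-- The bilinear form of the root lattice. -/
def form (c : Matrix ι ι ℤ) (v w : ι → ℤ) : ℤ := ∑ i, ∑ j, v i * c i j * w j

/-- The reflection `v ↦ v - (v, β) β` (a reflection if `(β, β) = 2`). -/
def sr (c : Matrix ι ι ℤ) (β : ι → ℤ) : (ι → ℤ) →ₗ[ℤ] (ι → ℤ) where
  toFun v := v - form c v β • β
  map_add' v w := by
    have : form c (v + w) β = form c v β + form c w β := by
      simp [form, add_mul, Finset.sum_add_distrib]
    rw [this, add_smul]; abel
  map_smul' m v := by
    have : form c (m • v) β = m * form c v β := by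
      simp [form, mul_assoc, Finset.mul_sum]
    rw [this, mul_smul, RingHom.id_apply, smul_sub]

/-- The group generated by the simple reflections with index in `I`. -/
def Wg (c : Matrix ι ι ℤ) (I : Set ι) : Subgroup ((ι → ℤ) ≃ₗ[ℤ] (ι → ℤ)) :=
  Subgroup.closure {g | ∃ i ∈ I, ∀ v, g v = sr c (al i) v}

/-- The positive roots in the span of the simple roots with index in `I`. -/
def PR (c : Matrix ι ι ℤ) (I : Set ι) : Set (ι → ℤ) :=
  {β | form c β β = 2 ∧ (∀ k, 0 ≤ β k) ∧ ∀ k, k ∉ I → β k = 0}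

/-- The linear forms with jets. -/
noncomputable def lin (v : ι → ℤ) (n : ℕ) : Fk ι ℂ := ∑ k, C ((v k : ℤ) : ℂ) * X (k, n)

/-- The linear forms. -/
noncomputable def lin0 (v : ι → ℤ) : MvPolynomial ι ℂ := ∑ k, C ((v k : ℤ) : ℂ) * X k

/-- The action of linear maps on the Fock space. -/
noncomputable def act (g : (ι → ℤ) →ₗ[ℤ] (ι → ℤ)) : Fk ι ℂ →ₐ[ℂ] Fk ι ℂ :=
  aeval fun p => lin (g (al p.1)) p.2

/-- The action of linear maps on polynomials. -/
noncomputable def act0 (g : (ι → ℤ) →ₗ[ℤ] (ι → ℤ)) : MvPolynomial ι ℂ →ₐ[ℂ] MvPolynomial ι ℂ :=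
  aeval fun k => lin0 (g (al k))

/-- Polynomials in the variables of index `0`. -/
noncomputable def emb : MvPolynomial ι ℂ →ₐ[ℂ] Fk ι ℂ := rename fun k => (k, 0)

/-- `f ↦ f(x(t))`: the homomorphism `x_{j,m} ↦ ∑_n binom(m+n,n) x_{j,m+n} t^n`. -/
noncomputable def jet : Fk ι ℂ →ₐ[ℂ] PowerSeries (Fk ι ℂ) :=
  aeval fun p => PowerSeries.mk fun n => C (((p.2 + n).choose n : ℕ) : ℂ) * X (p.1, p.2 + n)

/-- The divided power `∂ ^ n / n!` of the derivation `∂ x_{j,m} = (m + 1) x_{j,m+1}`. -/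
noncomputable def D (n : ℕ) (f : Fk ι ℂ) : Fk ι ℂ := PowerSeries.coeff n (jet f)

/-- The algebra generated by all `D n (β²)` and the linear forms (with jets) orthogonal to `β`:
the functions on the space of arcs of the quotient of the Cartan subalgebra by `s_β`. -/
noncomputable def B (c : Matrix ι ι ℤ) (β : ι → ℤ) : Subalgebra ℂ (Fk ι ℂ) :=
  Algebra.adjoin ℂ ({f | ∃ n : ℕ, f = D n (lin β 0 ^ 2)} ∪
    {f | ∃ (v : ι → ℤ) (n : ℕ), form c v β = 0 ∧ f = lin v n})

/-- The jet weight is at most `N`: `X (j, n)` has jet weight `n`. -/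
def JW (N : ℕ) (f : Fk ι ℂ) : Prop := ∀ m ∈ f.support, m.sum (fun p k => k * p.2) ≤ N

/-- The product of the positive roots (linear forms) of `I` which are not roots of `J`. -/
noncomputable def Jc (c : Matrix ι ι ℤ) (I J : Set ι) : MvPolynomial ι ℂ :=
  ∏ᶠ (β : ι → ℤ) (_ : β ∈ PR c I \ PR c J), lin0 β

/-- The sum of the transforms of `(Jc c I J) ^ (2 N)` under the group `Wg c I`. -/
noncomputable def th (c : Matrix ι ι ℤ) (I J : Set ι) (N : ℕ) : MvPolynomial ι ℂ :=
  ∑ᶠ w : Wg c I, act0 ((w : (ι → ℤ) ≃ₗ[ℤ] (ι → ℤ)) : (ι → ℤ) →ₗ[ℤ] (ι → ℤ)) (Jc c I J ^ (2 * N))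

end Pool.Agent.H391.SK
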