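import Pool.Agent.H391.SK.Defs

/-!
# The family of common kernels of the screening operators over `ℂ[ν]`, and its specialisations
-/

namespace Pool.Agent.H391.SK

open MvPolynomial

/-- The elements of conformal weight `N` (`X (j, n)` has weight `n + 1`). -/
noncomputable def WtN (ι A : Type) [CommRing A] (N : ℕ) : Submodule A (Fk ι A) :=
  weightedHomogeneousSubmodule A (fun p : ι × ℕ => p.2 + 1) N

/-- Specialisation of the parameter. -/
noncomputable def spe {ι : Type} (a : ℂ) : Fk ι (Polynomial ℂ) →+* Fk ι ℂ :=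
  MvPolynomial.map (Polynomial.evalRingHom a)

/-- The specialisation at `ν = a` of the common kernel of the screening operators over the ring
`ℂ[ν]`. -/
noncomputable def Wk {ι : Type} (c : Matrix ι ι ℤ) (a : ℂ) : Submodule ℂ (Fk ι ℂ) where
  carrier := {f | ∃ F ∈ KerS c (Polynomial.X : Polynomial ℂ) Set.univ, spe a F = f}
  add_mem' := by
    rintro _ _ ⟨F, hF, rfl⟩ ⟨G, hG, rfl⟩
    exact ⟨F + G, Submodule.add_mem _ hF hG, map_add _ _ _⟩
  zero_mem' := ⟨0, Submodule.zero_mem _, map_zero _⟩
  smul_mem' := by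
    rintro r _ ⟨F, hF, rfl⟩
    refine ⟨Polynomial.C r • F, Submodule.smul_mem _ _ hF, ?_⟩
    rw [smul_eq_C_mul, map_mul, smul_eq_C_mul]
    simp [spe]

end Pool.Agent.H391.SK
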