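import Pool.Agent.H391.SK.StD
import Pool.Agent.H391.SK.StA
import Pool.Graph.R_seed8.W345.VO.Stm

/-!
# Project SK, groups B (vertex algebra closure), C (lifts) and F (families). Statements.
-/

namespace Pool.Agent.H391.SK

open MvPolynomial

section model

variable {ι : Type} [Fintype ι] [DecidableEq ι]

/-- The space `M(1) ⊕ ⨁_i M(1) e^{√ν α_i}`. -/
abbrev VV (ι : Type) := Fk ι ℂ × (ι → Fk ι ℂ)

/-- The Heisenberg operators `√ν α_j(n)` on a Fock space on which `√ν α_j(0)` acts as `q`. -/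
noncomputable def hF (c : Matrix ι ι ℤ) (ν q : ℂ) (j : ι) (n : ℤ) : Module.End ℂ (Fk ι ℂ) :=
  if n < 0 then LinearMap.mulLeft ℂ (X (j, (-n - 1).toNat))
  else if n = 0 then q • LinearMap.id
  else ∑ k, (ν * n * ((c j k : ℤ) : ℂ)) •
    ((pderiv (R := ℂ) (k, (n - 1).toNat) : Derivation ℂ (Fk ι ℂ) (Fk ι ℂ)) :
      Module.End ℂ (Fk ι ℂ))

/-- The Heisenberg operators on `VV`. -/
noncomputable def hop (c : Matrix ι ι ℤ) (ν : ℂ) (j : ι) (n : ℤ) : Module.End ℂ (VV ι) :=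
  LinearMap.prodMap (hF c ν 0 j n)
    (LinearMap.pi fun i => hF c ν (ν * ((c j i : ℤ) : ℂ)) j n ∘ₗ LinearMap.proj i)

/-- The modes of `e^{√ν α_i}`: they map `M(1)` to `M(1) e^{√ν α_i}` and kill the rest. -/
noncomputable def Eop (c : Matrix ι ι ℤ) (ν : ℂ) (i : ι) (n : ℤ) : Module.End ℂ (VV ι) :=
  LinearMap.inr ℂ (Fk ι ℂ) (ι → Fk ι ℂ) ∘ₗ LinearMap.single ℂ (fun _ => Fk ι ℂ) i ∘ₗ
    Sj c ν i (-n - 1) ∘ₗ LinearMap.fst ℂ (Fk ι ℂ) (ι → Fk ι ℂ)

/-- The translation operator on polynomials, `x_{j,n} ↦ (n+1) x_{j,n+1}`. -/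
noncomputable def dd : Derivation ℂ (Fk ι ℂ) (Fk ι ℂ) :=
  mkDerivation ℂ fun p => C ((p.2 : ℂ) + 1) * X (p.1, p.2 + 1)

/-- The translation operator on `VV`. -/
noncomputable def Tr : Module.End ℂ (VV ι) :=
  LinearMap.prodMap ((dd : Derivation ℂ (Fk ι ℂ) (Fk ι ℂ)) : Module.End ℂ (Fk ι ℂ))
    (LinearMap.pi fun i =>
      (((dd : Derivation ℂ (Fk ι ℂ) (Fk ι ℂ)) : Module.End ℂ (Fk ι ℂ)) +
        LinearMap.mulLeft ℂ (X (i, 0))) ∘ₗ LinearMap.proj i)

end model

/-- REL. The relations of the operators.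
Proof: computations. For the third: with `V_i(z) = H_i(z) σ`, `σ = shf` (`w = z⁻¹`):
`[h_j(m), V_i(z)] = ν c_{ij} z^m V_i(z)`: for `m < 0` this is the commutation of `σ` with a
multiplication, for `m = 0` the charge, for `m > 0` it is `m ∑_k c_{jk} ν ∂_{k,m-1} H_i = ν c_{ij} z^m H_i`.
For the last: `∂ H_i = H_i (x_i(z) - x_{i,0})`, `x_i(z) = ∑ x_{i,n} z^n`, and `dd (σ f) = σ (dd f) + ∂_z (σ f)`. -/
def S_REL : Prop := ∀ (ι : Type) [Fintype ι] [DecidableEq ι] (c : Matrix ι ι ℤ), IsADE c →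
  ∀ ν : ℂ,
  (∀ (j k : ι) (m n : ℤ) (v : VV ι), hop c ν j m (hop c ν k n v) - hop c ν k n (hop c ν j m v) =
    (if m + n = 0 then (m : ℂ) * ν * ((c j k : ℤ) : ℂ) else 0) • v) ∧
  (∀ (i j : ι) (m n : ℤ) (v : VV ι), Eop c ν i m (Eop c ν j n v) = 0) ∧
  (∀ (j i : ι) (m n : ℤ) (v : VV ι), hop c ν j m (Eop c ν i n v) - Eop c ν i n (hop c ν j m v) =
    (ν * ((c i j : ℤ) : ℂ)) • Eop c ν i (m + n) v) ∧
  (∀ (j : ι) (n : ℤ) (v : VV ι), Tr (hop c ν j n v) - hop c ν j n (Tr v) =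
    (-(n : ℂ)) • hop c ν j (n - 1) v) ∧
  (∀ (i : ι) (n : ℤ) (v : VV ι), Tr (Eop c ν i n v) - Eop c ν i n (Tr v) =
    (-(n : ℂ)) • Eop c ν i (n - 1) v)

/-- VA. The vertex algebra generated by the fields `hop`, `Eop`.
Proof: the reconstruction theorem over `ℂ` is in the library: `Pool.Agent.W345.VO.S_REC`
(statement in `W345/VO/Stm`), proved as `hREC` in
`Pool/Graph/R_seed8/W345/VO/Full.lean` from the modules W688/VO/Fin, W933/VO/Int, W688/VO/Prd,
W395/VO/Sym, W369/VO/Dong, W85/VO/Cov, W179/VO/CRE, W155/VO/Recon (import only those). Apply it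
with `T = Tr`, `o = (1, 0)`, `G` = the set of all `hop c ν j` and `Eop c ν i`; locality follows from
REL (`N = 2` for two Heisenberg fields, `N = 1` for `hop`, `Eop`, `0` for two `Eop`); creation:
`hop j n o = 0`, `Eop i n o = 0` for `n ≥ 0` (`Sj c ν i m 1 = hz m = 0` for `m < 0`). Generation: a
subspace containing `o` and stable contains all `(f, 0)` (multiplications by the variables), and
`Eop i (-1) o = (0, e_i)`, and then all `(0, f e_i)`. -/
def S_VA : Prop := S_REL → ∀ (ι : Type) [Fintype ι] [DecidableEq ι] (c : Matrix ι ι ℤ), IsADE c →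
  ∀ ν : ℂ, ∃ A : Pool.Agent.W345.VO.VertexAlgebra (VV ι), A.one = (1, 0) ∧
    (∀ j, A.Y (X (j, 0), 0) = hop c ν j) ∧ (∀ i, A.Y (0, Pi.single i 1) = Eop c ν i)

/-- CLO. The common kernel of the screening operators is closed under the operations
`(a, b) ↦ a_{(-n-1)} b`, whose symbol is `D n (symbol of a) * (symbol of b)`.
Proof: let `A` be the vertex algebra of VA; write `a_n` for `A.Y (a, 0) n`. The Borcherds identity
(`l = 0` resp. `n = 0`) gives `E_i(0) (a_n v) - a_n (E_i(0) v) = (E_i(0) a)_n v`, where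
`E_i(0) (a, 0) = (0, Scr c ν i a e_i)` which is `0` for `a ∈ KerS`; so `a_n b ∈ KerS` once one knows that
`a_n (b, 0) = (b', 0)`. For the rest, show by induction on the monomials `a` (of degree `d`): for all
`n ∈ ℤ`, `(a, 0)_n` maps `(b, 0)`, `totalDegree b ≤ e`, to some `(b', 0)`, `totalDegree b' ≤ d + e`, and
`hc (d+e) b' = D (-n-1) a * hc e b` if `n < 0`, `= 0` if `n ≥ 0`. Induction step for `X (j,m) a`:
`((X (j,m) a, 0)) = x_{(-m-1)} (a, 0)` with `x = (X (j,0), 0)` (as `A.Y x = hop j`), and the Borcherds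
identity (iterate formula, `n = -m-1`, `m`...): `(x_{(-m-1)} a)_q = ∑_{i ≥ 0} (-1)^i binom(-m-1, i)
(x_{-m-1-i} a_{q+i} - (-1)^{-m-1} a_{-m-1+q-i} x_i)`, where `x_{-m-1-i}` is multiplication by `X (j, m+i)`
(degree one), and `x_i`, `i ≥ 0`, lowers the degree by one (or is zero), so the second terms have total
degree `≤ d + e - 1`; `(-1)^i binom(-m-1, i) = binom(m+i, i)`: the first terms give
`∑_i binom(m+i,i) X (j,m+i) D (-q-i-1) a = D (-q-1) (X (j,m) a)`. -/
def S_CLO : Prop := ∀ (ι : Type) [Fintype ι] [DecidableEq ι] (c : Matrix ι ι ℤ), IsADE c →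
  ∀ (ν : ℂ) (I : Set ι) (a b : Fk ι ℂ) (d e n : ℕ), a ∈ KerS c ν I → b ∈ KerS c ν I →
    a.totalDegree ≤ d → b.totalDegree ≤ e →
    ∃ f ∈ KerS c ν I, f.totalDegree ≤ d + e ∧
      homogeneousComponent (d + e) f = D n (homogeneousComponent d a) * homogeneousComponent e b

/-- CLO from REL and VA. -/
def S_CLOimp : Prop := S_REL → S_VA → S_CLO

/-- `x`, homogeneous of degree `d`, is the top component of an element of `KerS c ν I`. -/
def Lft {ι : Type} [Fintype ι] [DecidableEq ι] (c : Matrix ι ι ℤ) (ν : ℂ) (I : Set ι)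
    (d : ℕ) (x : Fk ι ℂ) : Prop :=
  x.IsHomogeneous d ∧ ∃ a ∈ KerS c ν I, a.totalDegree ≤ d ∧ homogeneousComponent d a = x

/-- LC. If all elements of a set `G` of homogeneous elements can be lifted to `KerS c ν I`, then so
can the homogeneous components of all elements of the algebra generated by all `D n g`, `g ∈ G`.
Proof: the elements all of whose homogeneous components can be lifted (in each degree `e`, `Lft e`)
form a subspace; the products `D n_1 g_1 ⋯ D n_r g_r` belong to it by induction on `r` (CLO,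
`1 ∈ KerS`), and they span the algebra. -/
def S_LC : Prop := S_CLO → ∀ (ι : Type) [Fintype ι] [DecidableEq ι] (c : Matrix ι ι ℤ),
  IsADE c → ∀ (ν : ℂ) (I : Set ι) (G : Set (Fk ι ℂ)), (∀ g ∈ G, ∃ d, Lft c ν I d g) →
    ∀ f ∈ Algebra.adjoin ℂ {h : Fk ι ℂ | ∃ g ∈ G, ∃ n, h = D n g}, ∀ e,
      Lft c ν I e (homogeneousComponent e f)

/-- LFT. Lifts of the generators.
Proof: explicit computations with `Scr c ν i f = ∑_{k ≥ 1} h_{k-1}(x_i) (coefficient of w^k in shf f)`.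
(1) `form v α_i = 0` for `i ∈ I`: `lin v 0` is in the kernel. (2) `X (i,0)² + 2(ν-1) X (i,1)` is in the
kernel of `Scr i`, and of `Scr j` if `c j i = 0`. (3) for `c i j = -1`, with `a = X (i,0)`, `b = X (j,0)`,
`a' = X (i,1)`, …: `a² + ab + b² + 3(ν-1)(a' + b')` and
`(2a+b)(a-b)(a+2b) + (9(ν-1)/2)(2 a a' - a b' + b a' - 2 b b') + 9(ν-1)²(a'' - b'')` are in the kernels of
`Scr i` and `Scr j` (`a'' = X (i,2)`). -/
def S_LFT : Prop := ∀ (ι : Type) [Fintype ι] [DecidableEq ι] (c : Matrix ι ι ℤ), IsADE c →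
  ∀ ν : ℂ,
  (∀ (I : Set ι) (v : ι → ℤ), (∀ i ∈ I, form c v (al i) = 0) → Lft c ν I 1 (lin v 0)) ∧
  (∀ i, Lft c ν {i} 2 (lin (al i) 0 ^ 2)) ∧
  (∀ i j k, i ≠ j → ∃ d, Lft c ν {i, j} d (emb (pairP c i j k)))

/-- R1. For an integer `p ≥ 1` the symbols of the kernel of one screening operator are in `B_i`. -/
def S_R1 : Prop := ∀ (ι : Type) [Fintype ι] [DecidableEq ι] (c : Matrix ι ι ℤ), IsADE c →
  ∀ (p : ℕ), 1 ≤ p → ∀ (i : ι) (d : ℕ) (f : Fk ι ℂ), Scr c (p : ℂ) i f = 0 → f.totalDegree ≤ d →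
    homogeneousComponent d f ∈ B c (al i)

/-- R1 from A10.
Proof: let `φ` be the automorphism of the algebra `C` with `φ(X (i,n)) = X (i,n)`,
`φ(X (k,n)) = X (k,n) - (c_{ki}/2) X (i,n)` (`k ≠ i`) (a linear form orthogonal to `α_i`). Then
`shf (φ f)` is the image of `f` under `X (i,n) ↦ X (i,n) - 2 ν w^{n+1}`, `X (k,n) ↦ φ(X (k,n))`, so
`φ⁻¹ ∘ Scr i ∘ φ` is the rank one operator `S1 ν (-1)` acting on the variables `X (i,n)` only, with the
other variables as parameters: write `φ⁻¹ f = ∑_μ f_μ(X (i,·)) μ`, `μ` the monomials in the variables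
`X (k,n)`, `k ≠ i`; each `f_μ` is in the kernel of `S1 p (-1)`, has degree `≤ d - deg μ`, so by A10 its
component of degree `d - deg μ` is a polynomial in the `yy n`, and `φ(yy n) = D n (lin α_i 0 ^ 2)`;
`φ(X (k,n)) = ½ lin (2α_k - c_{ki} α_i) n ∈ B_i`. -/
def S_R1imp : Prop := S_A10 → S_R1

/-- LA (linear algebra). If the kernels of the matrix `M(t)` of polynomials have the same
dimension for all integers `t ≥ 1`, then every element of the kernel of `M(p)` is the value at `p`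
of a polynomial family of elements of the kernels.
Proof: the rank of `M` over `ℂ(t)` is the maximum of the ranks of `M(t)`, attained for almost all `t`,
so it is `n - k` where `k` is the common dimension. The kernel `K` of `M` in `ℂ[t]^n` is a free module of
rank `k`, and it is saturated (`(t-p) v ∈ K` implies `v ∈ K`), so a basis stays linearly
independent at `t = p` and spans a subspace of dimension `k` of the kernel of `M(p)`. -/
def S_LA : Prop := ∀ (m n : ℕ) (M : Matrix (Fin m) (Fin n) (Polynomial ℂ)) (k : ℕ),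
  (∀ p : ℕ, 1 ≤ p → Module.finrank ℂ
    (LinearMap.ker (Matrix.mulVecLin (M.map (Polynomial.eval (p : ℂ))))) = k) →
  ∀ p : ℕ, 1 ≤ p → ∀ v : Fin n → ℂ, (M.map (Polynomial.eval (p : ℂ))).mulVec v = 0 →
    ∃ w : Fin n → Polynomial ℂ, M.mulVec w = 0 ∧ ∀ i, (w i).eval (p : ℂ) = v i

end Pool.Agent.H391.SK
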