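import Pool.Agent.H391.SK.StD

/-!
# Project SK, group E: exactness and gluing. Statements.
-/

namespace Pool.Agent.H391.SK

open MvPolynomial

/-- GAR. Let a finite group generated by involutions `s_i` with the braid relations of the Cartan
matrix `c` act on a complex vector space. If `f_i - f_j ∈ V^{s_i} + V^{s_j}` for all `i, j` then there is
`g` with `g - f_i ∈ V^{s_i}` for all `i`.
Proof. (Reduction) replace `V` by the span of the orbits of the finitely many vectors involved, so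
`V` is finite-dimensional. Choose an inner product invariant under the finite group (average);
the `s_i` are self-adjoint, `P_i = (1 - s_i)/2` is the orthogonal projection onto
`N_i = (V^{s_i})^⊥`. Let `n_i = P_i f_i`; the hypothesis says that for `i, j` there is `v_ij`
(`= f_i - a = f_j - b`) with `P_i v_ij = n_i`, `P_j v_ij = n_j`. We look for `g` with `P_i g = n_i` for
all `i`. Choose `g` minimising `∑ ‖P_i g - n_i‖²` (or: `∑ n_i` is orthogonal to the kernel of the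
self-adjoint operator `∑ P_i`, so `(∑ P_i) g = ∑ n_i` has a solution). Let `m_i = n_i - P_i g`, so
`∑ m_i = 0` and `m_i = P_i u`, `m_j = P_j u` with `u = v_ij - g`. Claim:
`Re ⟨m_i, m_j⟩ ≥ - ½ ‖m_i‖ ‖m_j‖` if `c i j = -1` and `≥ 0` if `c i j = 0`. Then
`0 = ‖∑ m_i‖² ≥ ∑_i ‖m_i‖² - ∑_{i<j, c i j = -1} ‖m_i‖‖m_j‖ = ½ ∑ t_i c_{ij} t_j`, `t_i = ‖m_i‖`, so `t = 0`
as `c` is positive definite, and `P_i g = n_i`. Proof of the claim: if `P_i`, `P_j` commute,
`⟨P_i u, P_j u⟩ = ‖P_i P_j u‖²`. If `s_i s_j s_i = s_j s_i s_j`, then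
`T = P_iP_jP_i - ¼P_i = P_jP_iP_j - ¼P_j`; `T = P_i T = P_j T = T P_i = T P_j`. Let `Z = N_i ∩ N_j`, `P_Z` the projection,
`z = P_Z u`; `P_i - P_Z`, `P_j - P_Z` are the projections onto `N_i' = N_i ⊖ Z`, `N_j'`, `m_i = z + m_i'`,
`m_j = z + m_j'`, `⟨m_i,m_j⟩ = ‖z‖² + ⟨m_i',m_j'⟩`; for `n ∈ N_i'`: `T n ∈ Z` and `⟨T n, z⟩ = ⟨n, T z⟩ = 0` for
`z ∈ Z` (`T z = ¾ z`), so `T n = 0`, `‖P_j n‖² = ¼ ‖n‖²`. So `|⟨m_i',m_j'⟩| = |⟨P_j m_i', m_j'⟩| ≤ ½‖m_i'‖‖m_j'‖`. -/
def S_GAR : Prop := ∀ (ι : Type) [Fintype ι] [DecidableEq ι] (c : Matrix ι ι ℤ), IsADE c →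
  ∀ (V : Type) [AddCommGroup V] [Module ℂ V] (s : ι → Module.End ℂ V),
    (Submonoid.closure (Set.range s) : Set (Module.End ℂ V)).Finite → (∀ i, s i * s i = 1) →
    (∀ i j, c i j = 0 → s i * s j = s j * s i) →
    (∀ i j, c i j = -1 → s i * s j * s i = s j * s i * s j) →
    ∀ f : ι → V, (∀ i j, ∃ a b : V, s i a = a ∧ s j b = b ∧ f i - f j = a - b) →
      ∃ g : V, ∀ i, s i (g - f i) = g - f i

/-- Compatible families of invariant elements, of jet weight at most `N`. -/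
def Fam {ι : Type} [Fintype ι] [DecidableEq ι] (c : Matrix ι ι ℤ) (N : ℕ) (f : ι → Fk ι ℂ) : Prop :=
  (∀ i, act (sr c (al i)) (f i) = f i ∧ JW N (f i)) ∧
  ∀ i j, ∃ g : Fk ι ℂ, act (sr c (al i)) g = g ∧ act (sr c (al j)) g = g ∧ JW N g ∧
    g - f i ∈ B c (al i) ∧ g - f j ∈ B c (al j)

/-- EQ. The classes of the `f_i` modulo `B_i` are compatible with the group.
Proof. Induction on the number of `β ∈ Φ⁺` with `-wβ ∈ Φ⁺`. If `w ≠ 1` there is a `j` with `-w α_j ∈ Φ⁺`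
(LEN and ROOT (6)); `j ≠ i`. Let `W_ij = Wg c {i,j}`. Among the elements `w v⁻¹`, `v ∈ W_ij`, choose
`w' = w v⁻¹` with the least number `ℓ(w')` of positive roots made negative; then `w' α_i, w' α_j ∈ Φ⁺`
(if `-w' α_i ∈ Φ⁺` then `ℓ(w' s_i) = ℓ(w') - 1` by ROOT (5)), and `ℓ(w') < ℓ(w)` as `ℓ(w s_j) < ℓ(w)`. The root
`v α_i` is `a α_i + b α_j` with integers of one sign (ROOT (4), `Wg_supp`) and
`α_k = w α_i = a (w' α_i) + b (w' α_j)`, so `a, b ≥ 0` and, comparing the sums of the coordinates,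
`a + b = 1`: `v α_i = α_{i'}` with `i' ∈ {i, j}`. Let `g` be the element of `Fam` for `i, j`; `v g = g`
(`act_inv_iff`), so `v f_i - f_{i'} = -v (g - f_i) + (g - f_{i'}) ∈ B_{i'}` (`act_Wg_mem_B`). Then
`w f_i - f_k = w' (v f_i - f_{i'}) + (w' f_{i'} - f_k) ∈ B_k` by induction. -/
def S_EQ : Prop := S_ROOT → S_LEN → ∀ (ι : Type) [Fintype ι] [DecidableEq ι] (c : Matrix ι ι ℤ),
  IsADE c → ∀ (N : ℕ) (f : ι → Fk ι ℂ), Fam c N f →
    ∀ w ∈ Wg c Set.univ, ∀ i k : ι, w (al i) = al k →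
      act ((w : (ι → ℤ) ≃ₗ[ℤ] (ι → ℤ)) : (ι → ℤ) →ₗ[ℤ] (ι → ℤ)) (f i) - f k ∈ B c (al k)

/-- STEP. For `J = ∅`, `{i}`, `{i, j}` the element `th c univ J N` times the family is a coboundary.
Proof. `J` has at most two elements. Let `f_J = 0`, `f_i`, resp. the element `g` of `Fam` for `i, j`:
`f_J` is invariant under `W_J`, `f_J - f_i ∈ B_i` for `i ∈ J`, `JW N f_J`. Let `P = Jc c univ J ^ (2N)`, and
`g = ∑_w w (emb P · f_J)` (sum over `W = Wg c univ`, finite). Fix `k`. With `T_w = w(emb P) (f_k - w f_J)`,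
`emb (th c univ J N) f_k - g = ∑_w T_w = ½ ∑_w (T_w + s_k T_w)`, because `s_k T_w = T_{s_k w}` (`s_k f_k = f_k`).
(a) If `w⁻¹ α_k` or `-w⁻¹ α_k` is in `Φ⁺_J`: then (ROOT (7)) `± w⁻¹ α_k = v α_i` with `v ∈ W_J`, `i ∈ J`;
replacing `v` by `v s_i` we get `w v α_i = α_k` with `v ∈ W_J`. By EQ, `w v f_i - f_k ∈ B_k`; as `v f_J = f_J` and
`f_J - f_i ∈ B_i`, `w f_J - w v f_i = w v (f_J - f_i) ∈ B_k`; so `f_k - w f_J ∈ B_k`. Moreover `w(P)` is
invariant under `s_k` (`w⁻¹ s_k w` is in `W_J`; it permutes up to signs the positive roots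
which are not in `Φ⁺_J`, and the exponent is even), so `emb (w P) ∈ B_k` (QP, `N = 0`) and
`T_w, s_k T_w ∈ B_k`. (b) Otherwise `± w⁻¹ α_k ∈ Φ⁺ \ Φ⁺_J`, so `α_k^{2N}` divides `w(P)`:
`T_w = α_k^{2N} U` with `JW N U`, `T_w + s_k T_w = α_k^{2N} (U + s_k U) ∈ B_k` by QP. -/
def S_STEP : Prop := S_ROOT → S_QP → S_EQ → ∀ (ι : Type) [Fintype ι] [DecidableEq ι]
  (c : Matrix ι ι ℤ), IsADE c → ∀ (N : ℕ) (f : ι → Fk ι ℂ), Fam c N f →
    ∀ J : Finset ι, J.card ≤ 2 → ∃ g : Fk ι ℂ, ∀ k,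
      emb (th c Set.univ J N) * f k - g ∈ B c (al k)

/-- MID. Exactness. -/
def S_MID : Prop := ∀ (ι : Type) [Fintype ι] [DecidableEq ι] (c : Matrix ι ι ℤ), IsADE c →
  ∀ f : ι → Fk ι ℂ, (∀ i j, ∃ a ∈ B c (al i), ∃ b ∈ B c (al j), f i - f j = a - b) →
    ∃ g : Fk ι ℂ, ∀ i, g - f i ∈ B c (al i)

/-- MID from the parts.
Proof. (1) The elements of `B_i` are `s_i`-invariant (`B_inv`), so GAR applies with `V = C`,
`s_i = act (sr c (al i))` (the monoid generated by them is finite since `Wg c univ` is): there is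
`f₀` with `f₀ - f_i` invariant under `s_i`; put `h_i = f_i - f₀`; `h_i - h_j = a - b`, and
`g_ij = h_i - a = h_j - b` is invariant under `s_i` and `s_j`. So `Fam c N h` for all large `N ≥ 1` (`exists_JW`).
(2) If `card ι ≤ 1` the claim is trivial (`g = f_i`). Let `card ι ≥ 2`, `a = Δ^{2N}` (`Δ = Jc c univ ∅`),
`b = ∑_i th c univ {i} N`, `e = ∑_{i≠j} th c univ {i,j} N` (invariants, TH). By STEP (and TH for `a`)
there are `g_a, g_b, g_e ∈ C` with `a h_k - g_a`, `b h_k - g_b`, `e h_k - g_e ∈ B_k` for all `k`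
(we write `a` for `emb a`; `emb a, emb b, emb e ∈ B_k` by QP with `N = 0`). Then
`r_ab = b g_a - a g_b`, `r_ae = e g_a - a g_e`, `r_be = e g_b - b g_e` lie in all `B_k`, so in `R = RR P`
where `P` is given by CHEV (E1), and `e r_ab - b r_ae + a r_be = 0`. By RRG (third part, hypothesis REG3;
`IsRelPrime a b` by REG2) `r_ab = a u + b v`, `u, v ∈ R`; so `b (r_ae - e v) = a (e u + r_be)`, and by
RRG (second part) `r_ae - e v = a t`, `t ∈ R`, and then `e u + r_be = b t`. Put `r_a = v`, `r_b = -u`,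
`r_e = -t`: `r_ab = b r_a - a r_b`, `r_ae = e r_a - a r_e`. With `g'_a = g_a - r_a`, `g'_b = g_b - r_b`:
`b g'_a = a g'_b`, so (RRG, first part) `g'_a = a g`, `g'_b = b g` for some `g ∈ C`. Now
`b (h_k - g) = (b h_k - g_b) + r_b ∈ B_k` (`R ⊆ B_k` as `P j` is `s_k`-invariant: the elements of `R` are
in `B_k` because `emb (P j) ∈ B_k` by QP and `B_k` is stable under all `D n`). As `α_k` does not
divide `b` (REG2 with `N ≥ 1`: `α_k ∣ Δ`), TOR gives `h_k - g ∈ B_k`. Then `g + f₀` is the solution. -/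
def S_MIDimp : Prop := S_ROOT → S_LEN → S_GAR → S_QP → S_TOR → S_TH → S_REG2 → S_REG3 → S_CHEV →
  S_E1 → S_RRG → S_EQ → S_STEP → S_MID

/-- GLUE (linear algebra). `V` with a filtration by `F e` (`F` increasing, `F 0 = 0`), symbols in
`G` (`σ e : V → G`, linear, with kernel `F e` on `F (e+1)`), subspaces `A i` of `V`, `Bs i` of `G`.
Stated for the Fock space: `A i` subspaces of `C` such that the top homogeneous components of elements
of `A i` are in `B_i`, every homogeneous element of `B_i ∩ B_j` is the top component of an element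
of `A i ∩ A j`. Then every homogeneous element of all `B_i` is the top component of an element of
all `A i`.
Proof. Write `hc e` for the homogeneous component, `F e` = elements of total degree `< e`.
(1) If `a ∈ A i`, `b ∈ A j`, `a + b ∈ F (e+1)` then `hc e (a+b) ∈ B_i + B_j`: by induction on a common
bound `d` of the degrees: if `d ≤ e` it is clear. If `d > e`, `hc d a = - hc d b ∈ B_i ∩ B_j` is the
top component of an element `c ∈ A i ∩ A j` of degree `≤ d`; replace `a, b` by `a - c`, `b + c`.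
(2) Let `x` be homogeneous of degree `d` in all `B_i`. Show by descending induction on `e ≤ d` that
there is `v` of degree `≤ d` with `hc d v = x` and `v ∈ A i + F e` for all `i`. `e = d`: take `v = x`; `x` is
the top component of an element of `A i` (take `j = i`). Step from `e+1` to `e` (`e < d`): `v = a_i + u_i`,
`a_i ∈ A i`, `u_i ∈ F (e+1)`. `a_i - a_j = u_j - u_i`, so by (1) `hc e u_i - hc e u_j ∈ B_i + B_j`. By MID (and
taking homogeneous components, `hc_mem_B`) there is `y`, homogeneous of degree `e`, with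
`y - hc e u_i ∈ B_i` for all `i`, and this is the top component of some `c_i ∈ A i` of degree `≤ e`.
Put `v' = v - y`; `v' = (a_i - c_i) + (u_i - y + c_i)`, and `u_i - y + c_i ∈ F e`. (3) `e = 0`. -/
def S_GLUE : Prop := S_MID → ∀ (ι : Type) [Fintype ι] [DecidableEq ι] (c : Matrix ι ι ℤ),
  IsADE c → ∀ A : ι → Submodule ℂ (Fk ι ℂ),
    (∀ i, ∀ a ∈ A i, ∀ d, a.totalDegree ≤ d → homogeneousComponent d a ∈ B c (al i)) →
    (∀ i j, ∀ (d : ℕ) (x : Fk ι ℂ), x.IsHomogeneous d → x ∈ B c (al i) → x ∈ B c (al j) →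
      ∃ a, a ∈ A i ∧ a ∈ A j ∧ a.totalDegree ≤ d ∧ homogeneousComponent d a = x) →
    ∀ (d : ℕ) (x : Fk ι ℂ), x.IsHomogeneous d → (∀ i, x ∈ B c (al i)) →
      ∃ v : Fk ι ℂ, v.totalDegree ≤ d ∧ homogeneousComponent d v = x ∧ ∀ i, v ∈ A i

end Pool.Agent.H391.SK
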