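import Pool.Agent.H391.SK.StB
import Pool.Agent.H391.SK.StE
import Pool.Agent.H391.SK.DefsW

/-!
# Project SK, group F: the last steps. Statements.
-/

namespace Pool.Agent.H391.SK

open MvPolynomial

/-- ALL. Every homogeneous element of all `B_i` is the symbol of an element of the common kernel
(for an integer `p ≥ 1`). -/
def S_ALL : Prop := ∀ (ι : Type) [Fintype ι] [DecidableEq ι] (c : Matrix ι ι ℤ), IsADE c →
  ∀ (p : ℕ), 1 ≤ p → ∀ (d : ℕ) (x : Fk ι ℂ), x.IsHomogeneous d → (∀ i, x ∈ B c (al i)) →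
    Lft c (p : ℂ) Set.univ d x

/-- SPW. Specialisation and weights.
Proof. `hs`, `hz`, `shf`, `Sj` are compatible with `ℂ`-algebra homomorphisms of the rings of scalars
(`Polynomial.aeval a : ℂ[ν] → ℂ`, `X ↦ a`); the coefficient of `w^k` in `shf c ν i f` has weight `N - k` if
`f` has weight `N`, `hs (X (i, ·)) k` has weight `k`. -/
def S_SPW : Prop := ∀ (ι : Type) [Fintype ι] [DecidableEq ι] (c : Matrix ι ι ℤ),
  (∀ (a : ℂ) (i : ι) (F : Fk ι (Polynomial ℂ)),
    spe a (Scr c (Polynomial.X : Polynomial ℂ) i F) = Scr c a i (spe a F)) ∧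
  (∀ (A : Type) [CommRing A] [Algebra ℂ A] (ν : A) (i : ι) (N : ℕ) (f : Fk ι A),
    f ∈ WtN ι A (N + 1) → Scr c ν i f ∈ WtN ι A N) ∧
  (∀ (A : Type) [CommRing A] [Algebra ℂ A] (ν : A) (i : ι) (a : A), Scr c ν i (C a) = 0) ∧
  (∀ (A : Type) [CommRing A] [Algebra ℂ A] (ν : A) (I : Set ι) (N : ℕ) (f : Fk ι A),
    f ∈ KerS c ν I →
      weightedHomogeneousComponent (fun p : ι × ℕ => p.2 + 1) N f ∈ KerS c ν I) ∧
  (∀ N : ℕ, {m : (ι × ℕ) →₀ ℕ | Finsupp.weight (fun p : ι × ℕ => p.2 + 1) m = N}.Finite)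

/-- DIM. Comparison of dimensions by symbols.
Proof. `dim K = ∑_d dim {hc d f : f ∈ K, totalDegree f ≤ d}`: the kernel of `hc d` on
`K ∩ {totalDegree ≤ d}` is `K ∩ {totalDegree ≤ d - 1}`. (Induction: compare
`K ∩ {totalDegree ≤ d}` and `K' ∩ {totalDegree ≤ d}`; a finite-dimensional space of polynomials has
bounded degree.) -/
def S_DIM : Prop := ∀ (σ : Type) (K K' : Submodule ℂ (MvPolynomial σ ℂ)),
  FiniteDimensional ℂ K → FiniteDimensional ℂ K' →
  (∀ (d : ℕ), ∀ f ∈ K, f.totalDegree ≤ d →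
    ∃ f' ∈ K', f'.totalDegree ≤ d ∧ homogeneousComponent d f' = homogeneousComponent d f) →
  Module.finrank ℂ K ≤ Module.finrank ℂ K'

/-- DEQ. For integers `p, q ≥ 1` the common kernels have the same graded dimension.
Proof: by symmetry it suffices to show `≤`; apply DIM to `K = KerS c p univ ⊓ WtN N` and `K' =
KerS c q univ ⊓ WtN N`: for `f ∈ K` of total degree `≤ d` the component `hc d f` is in all `B_i` (R1), so
by ALL there is `a ∈ KerS c q univ` with `totalDegree a ≤ d`, `hc d a = hc d f`; take the component of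
weight `N` of `a` (SPW; it commutes with `hc d`, and `hc d f` has weight `N`). -/
def S_DEQ : Prop := ∀ (ι : Type) [Fintype ι] [DecidableEq ι] (c : Matrix ι ι ℤ), IsADE c →
  ∀ (p q N : ℕ), 1 ≤ p → 1 ≤ q →
    Module.finrank ℂ (KerS c (p : ℂ) Set.univ ⊓ WtN ι ℂ N : Submodule ℂ (Fk ι ℂ)) =
      Module.finrank ℂ (KerS c (q : ℂ) Set.univ ⊓ WtN ι ℂ N : Submodule ℂ (Fk ι ℂ))

def S_DEQimp : Prop := S_R1 → S_ALL → S_SPW → S_DIM → S_DEQ

/-- FIN. The common kernel at an integer is the specialisation of the kernel over `ℂ[ν]`. -/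
def S_FIN : Prop := ∀ (ι : Type) [Fintype ι] [DecidableEq ι] (c : Matrix ι ι ℤ), IsADE c →
  ∀ p : ℕ, 1 ≤ p → KerS c (p : ℂ) Set.univ = Wk c (p : ℂ)

/-- FIN from the parts.
Proof. `⊇` is SPW. Let `f ∈ KerS c p univ`; by SPW (weight components) assume that `f` has weight `N`. Let `T`, `T'` be
the finite sets of monomials of weight `N`, `N - 1` (`N = 0` is trivial: constants). Let `M` be the
matrix over `ℂ[ν]` with the rows indexed by `ι × T'`, the columns by `T` and the entries
`coeff m' (Scr c X i (monomial m 1))`. By SPW the kernel of `M` at `ν = a` is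
`KerS c a univ ⊓ WtN N` in the coordinates `coeff m`. By DEQ it has the same dimension for all integers
`a ≥ 1`, so LA applies and gives a lift of the coordinate vector of `f` to a vector over `ℂ[ν]` in the
kernel of `M`. -/
def S_FINimp : Prop := S_SPW → S_DEQ → S_LA → S_FIN

/-- LAG (linear algebra, complement to LA). For a matrix of polynomials, the specialisations of the
kernel have the same dimension at all points, and at all but finitely many points they are the whole kernel.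
Proof: see LA: the kernel over `ℂ[t]` is free of rank `k` and saturated; at all `a` where the rank of
`M(a)` is the generic rank the kernel of `M(a)` has dimension `k` too. -/
def S_LAG : Prop := ∀ (m n : ℕ) (M : Matrix (Fin m) (Fin n) (Polynomial ℂ)),
  (∃ k : ℕ, ∀ a : ℂ, Module.finrank ℂ (Submodule.span ℂ
    {v : Fin n → ℂ | ∃ w : Fin n → Polynomial ℂ, M.mulVec w = 0 ∧ ∀ i, (w i).eval a = v i}) = k) ∧
  ({a : ℂ | ∃ v : Fin n → ℂ, (M.map (Polynomial.eval a)).mulVec v = 0 ∧
    ¬ ∃ w : Fin n → Polynomial ℂ, M.mulVec w = 0 ∧ ∀ i, (w i).eval a = v i}).Finite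

/-- GENE. The family `Wk c a`: the graded dimension does not depend on `a`, `Wk c a` is contained in
the common kernel at `a`, with equality for all `a` outside of a countable set.
Proof: as for FIN, with LAG for each weight `N`. -/
def S_GENE : Prop := ∀ (ι : Type) [Fintype ι] [DecidableEq ι] (c : Matrix ι ι ℤ),
  (∀ a : ℂ, Wk c a ≤ KerS c a Set.univ) ∧
  (∃ E : Set ℂ, E.Countable ∧ ∀ a, a ∉ E → Wk c a = KerS c a Set.univ) ∧
  (∀ (a b : ℂ) (N : ℕ), Module.finrank ℂ (Wk c a ⊓ WtN ι ℂ N : Submodule ℂ (Fk ι ℂ)) =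
    Module.finrank ℂ (Wk c b ⊓ WtN ι ℂ N : Submodule ℂ (Fk ι ℂ)))

def S_GENEimp : Prop := S_SPW → S_LAG → S_GENE

end Pool.Agent.H391.SK
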